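import Mathlib

/-!
Burnside and Sanov: finitely generated groups of exponent 3 and 4 are finite.
(The proofs are those of `Pool/Agent/Results/MP_5ca50a_lc/SmallExponents.lean`, in an arbitrary
universe.)
-/

universe u

namespace H15.Burn

section three

variable {G : Type u} [Group G]

theorem ex3_a (h3 : ∀ g : G, g ^ 3 = 1) (x h : G) : x * h * x = h⁻¹ * x⁻¹ * h⁻¹ := by
  have := h3 (x * h)
  have h1 : (x * h * x) * (h * x * h) = 1 := by
    rw [← this]; simp only [pow_succ, pow_zero]; group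
  have h2 : x * h * x = (h * x * h)⁻¹ := eq_inv_of_mul_eq_one_left h1
  rw [h2]; group

theorem ex3_inv (h3 : ∀ g : G, g ^ 3 = 1) (x : G) : x⁻¹ = x * x := by
  have := h3 x
  have h1 : x * (x * x) = 1 := by rw [← this]; simp only [pow_succ, pow_zero]; group
  exact inv_eq_of_mul_eq_one_right h1

theorem ex3_b (h3 : ∀ g : G, g ^ 3 = 1) (x h : G) : x⁻¹ * h * x⁻¹ = h⁻¹ * x * h⁻¹ := by
  have := ex3_a h3 x⁻¹ h
  simpa using this

/-- The shapes of the elements. -/
inductive Sh (H : Subgroup G) (x : G) : G → Prop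
  | a0 (a : G) : a ∈ H → Sh H x a
  | a1 (a b : G) : a ∈ H → b ∈ H → Sh H x (a * x * b)
  | a2 (a b : G) : a ∈ H → b ∈ H → Sh H x (a * x⁻¹ * b)
  | a3 (a b c : G) : a ∈ H → b ∈ H → c ∈ H → Sh H x (a * x * b * x⁻¹ * c)
  | a4 (a b c : G) : a ∈ H → b ∈ H → c ∈ H → Sh H x (a * x⁻¹ * b * x * c)

theorem Sh.fin (H : Subgroup G) (x : G) (hH : (H : Set G).Finite) :
    {g | Sh H x g}.Finite := by
  have f1 := (hH.prod hH).image (fun p : G × G => p.1 * x * p.2)
  have f2 := (hH.prod hH).image (fun p : G × G => p.1 * x⁻¹ * p.2)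
  have f3 := (hH.prod (hH.prod hH)).image (fun p : G × G × G => p.1 * x * p.2.1 * x⁻¹ * p.2.2)
  have f4 := (hH.prod (hH.prod hH)).image (fun p : G × G × G => p.1 * x⁻¹ * p.2.1 * x * p.2.2)
  refine ((((hH.union f1).union f2).union f3).union f4).subset ?_
  intro g hg
  cases hg with
  | a0 _ ha => exact Or.inl (Or.inl (Or.inl (Or.inl ha)))
  | a1 a b ha hb => exact Or.inl (Or.inl (Or.inl (Or.inr ⟨(a, b), ⟨ha, hb⟩, rfl⟩)))
  | a2 a b ha hb => exact Or.inl (Or.inl (Or.inr ⟨(a, b), ⟨ha, hb⟩, rfl⟩))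
  | a3 a b c ha hb hc => exact Or.inl (Or.inr ⟨(a, b, c), ⟨ha, hb, hc⟩, rfl⟩)
  | a4 a b c ha hb hc => exact Or.inr ⟨(a, b, c), ⟨ha, hb, hc⟩, rfl⟩

theorem Sh.mulH {H : Subgroup G} {x g s : G} (hg : Sh H x g) (hs : s ∈ H) : Sh H x (g * s) := by
  cases hg with
  | a0 _ ha => exact Sh.a0 _ (H.mul_mem ha hs)
  | a1 a b ha hb => rw [mul_assoc]; exact Sh.a1 _ _ ha (H.mul_mem hb hs)
  | a2 a b ha hb => rw [mul_assoc]; exact Sh.a2 _ _ ha (H.mul_mem hb hs)
  | a3 a b c ha hb hc => rw [mul_assoc]; exact Sh.a3 _ _ _ ha hb (H.mul_mem hc hs)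
  | a4 a b c ha hb hc => rw [mul_assoc]; exact Sh.a4 _ _ _ ha hb (H.mul_mem hc hs)

theorem Sh.mulx (h3 : ∀ g : G, g ^ 3 = 1) {H : Subgroup G} {x g : G} (hg : Sh H x g) :
    Sh H x (g * x) := by
  cases hg with
  | a0 _ ha => simpa using Sh.a1 _ 1 ha H.one_mem
  | a1 a b ha hb =>
    have e : a * x * b * x = (a * b⁻¹) * x⁻¹ * b⁻¹ := by
      calc a * x * b * x = a * (x * b * x) := by group
        _ = a * (b⁻¹ * x⁻¹ * b⁻¹) := by rw [ex3_a h3]
        _ = _ := by group
    rw [e]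
    exact Sh.a2 _ _ (H.mul_mem ha (H.inv_mem hb)) (H.inv_mem hb)
  | a2 a b ha hb => simpa using Sh.a4 _ _ 1 ha hb H.one_mem
  | a3 a b c ha hb hc =>
    have e : a * x * b * x⁻¹ * c * x = (a * b⁻¹ * (c * b)) * x * ((c * b) * c⁻¹) := by
      calc a * x * b * x⁻¹ * c * x = a * x * b * (x * x) * c * x := by rw [← ex3_inv h3]
        _ = a * (x * b * x) * (x * c * x) := by group
        _ = a * (b⁻¹ * x⁻¹ * b⁻¹) * (c⁻¹ * x⁻¹ * c⁻¹) := by rw [ex3_a h3 x b, ex3_a h3 x c]
        _ = a * b⁻¹ * (x⁻¹ * (c * b)⁻¹ * x⁻¹) * c⁻¹ := by group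
        _ = a * b⁻¹ * (((c * b)⁻¹)⁻¹ * x * ((c * b)⁻¹)⁻¹) * c⁻¹ := by rw [ex3_b h3]
        _ = _ := by group
    rw [e]
    have hcb := H.mul_mem hc hb
    exact Sh.a1 _ _ (H.mul_mem (H.mul_mem ha (H.inv_mem hb)) hcb) (H.mul_mem hcb (H.inv_mem hc))
  | a4 a b c ha hb hc =>
    have e : a * x⁻¹ * b * x * c * x = (a * (b * c⁻¹)⁻¹) * x * ((b * c⁻¹)⁻¹ * c⁻¹) := by
      calc a * x⁻¹ * b * x * c * x = a * x⁻¹ * b * (x * c * x) := by group
        _ = a * x⁻¹ * b * (c⁻¹ * x⁻¹ * c⁻¹) := by rw [ex3_a h3]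
        _ = a * (x⁻¹ * (b * c⁻¹) * x⁻¹) * c⁻¹ := by group
        _ = a * ((b * c⁻¹)⁻¹ * x * (b * c⁻¹)⁻¹) * c⁻¹ := by rw [ex3_b h3]
        _ = _ := by group
    rw [e]
    have hbc := H.inv_mem (H.mul_mem hb (H.inv_mem hc))
    exact Sh.a1 _ _ (H.mul_mem ha hbc) (H.mul_mem hbc (H.inv_mem hc))

theorem fin3 (h3 : ∀ g : G, g ^ 3 = 1) (S : Finset G) :
    ((Subgroup.closure (S : Set G) : Subgroup G) : Set G).Finite := by
  classical
  induction S using Finset.induction_on with
  | empty => simp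
  | insert x S _ ih =>
    set H := Subgroup.closure (S : Set G) with hH
    refine (Sh.fin H x ih).subset ?_
    intro g hg
    rw [SetLike.mem_coe] at hg
    show Sh H x g
    induction hg using Subgroup.closure_induction_right with
    | one => exact Sh.a0 _ H.one_mem
    | mul_right g hg y hy ihg =>
      rw [Finset.coe_insert, Set.mem_insert_iff] at hy
      rcases hy with rfl | hy
      · exact ihg.mulx h3
      · exact ihg.mulH (Subgroup.subset_closure hy)
    | mul_inv_cancel g hg y hy ihg =>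
      rw [Finset.coe_insert, Set.mem_insert_iff] at hy
      rcases hy with rfl | hy
      · rw [ex3_inv h3, ← mul_assoc]
        exact (ihg.mulx h3).mulx h3
      · exact ihg.mulH (H.inv_mem (Subgroup.subset_closure hy))

end three

section four

variable {G : Type u} [Group G] (x : G)

/-- The product `x h_1 x h_2 ... x h_n`. -/
def Q : List G → G
  | [] => 1
  | h :: t => x * h * Q t

@[simp] theorem Q_nil : Q x [] = 1 := rfl
@[simp] theorem Q_cons (h : G) (t : List G) : Q x (h :: t) = x * h * Q x t := rfl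

/-- Reducible lists. -/
def Red (H : Subgroup G) (l : List G) : Prop :=
  ∃ h0 ∈ H, ∃ l' : List G, (∀ a ∈ l', a ∈ H) ∧ l'.length < l.length ∧ Q x l = h0 * Q x l'

theorem red_cons {H : Subgroup G} {t : List G} {a : G} (ha : a ∈ H) (h : Red x H t) :
    Red x H (a :: t) := by
  obtain ⟨h0, hh, l', hl, hlen, e⟩ := h
  refine ⟨1, H.one_mem, (a * h0) :: l', ?_, by simpa using hlen, ?_⟩
  · intro b hb
    rcases List.mem_cons.mp hb with rfl | hb
    · exact H.mul_mem ha hh
    · exact hl b hb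
  · simp only [Q_cons, e]; group

theorem red_one {H : Subgroup G} (hx : x * x ∈ H) {t : List G} {b : G} (hb : b ∈ H)
    (ht : ∀ a ∈ t, a ∈ H) : Red x H (1 :: b :: t) := by
  refine ⟨x * x * b, H.mul_mem hx hb, t, ht, by simp, ?_⟩
  simp only [Q_cons]; group

/-- The possible heads. -/
def Cs : List G → List G
  | [] => []
  | [_] => []
  | h :: b :: t => h :: (Cs (b :: t)).map (fun c => h * c⁻¹)

theorem cs_length : ∀ l : List G, (Cs l).length = l.length - 1
  | [] => rfl
  | [_] => rfl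
  | h :: b :: t => by
    have := cs_length (b :: t)
    simp only [Cs, List.length_cons, List.length_map] at this ⊢
    omega

theorem move (h4 : ∀ g : G, g ^ 4 = 1) (h d b q : G) :
    x * h * (x * d * (x * b * q)) =
      x * (h * d⁻¹) * (x * ((x * x)⁻¹ * d⁻¹ * (x * x)⁻¹) * (x * (d⁻¹ * b) * q)) := by
  have h1 : x * d * x = d⁻¹ * x⁻¹ * d⁻¹ * x⁻¹ * d⁻¹ := by
    have := h4 (x * d)
    have h2 : (x * d * x) * (d * x * d * x * d) = 1 := by
      rw [← this]; simp only [pow_succ, pow_zero]; group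
    rw [eq_inv_of_mul_eq_one_left h2]; group
  calc x * h * (x * d * (x * b * q)) = x * h * (x * d * x) * b * q := by group
    _ = x * h * (d⁻¹ * x⁻¹ * d⁻¹ * x⁻¹ * d⁻¹) * b * q := by rw [h1]
    _ = _ := by group

theorem cs_spec (h4 : ∀ g : G, g ^ 4 = 1) {H : Subgroup G} (hx : x * x ∈ H) :
    ∀ l : List G, (∀ a ∈ l, a ∈ H) → ∀ c ∈ Cs l, ∃ b t, c ∈ H ∧ b ∈ H ∧ (∀ a ∈ t, a ∈ H) ∧
      Q x l = Q x (c :: b :: t) ∧ l.length = (c :: b :: t).length
  | [], _, c, hc => by simp [Cs] at hc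
  | [_], _, c, hc => by simp [Cs] at hc
  | h :: b :: t, hl, c, hc => by
    have hh : h ∈ H := hl h (by simp)
    simp only [Cs, List.mem_cons, List.mem_map] at hc
    rcases hc with rfl | ⟨d, hd, rfl⟩
    · exact ⟨b, t, hh, hl b (by simp), fun a ha => hl a (by simp [ha]), rfl, rfl⟩
    · obtain ⟨b', t', hd', hb', ht', e1, e2⟩ :=
        cs_spec h4 hx (b :: t) (fun a ha => hl a (List.mem_cons_of_mem _ ha)) d hd
      refine ⟨(x * x)⁻¹ * d⁻¹ * (x * x)⁻¹, (d⁻¹ * b') :: t', H.mul_mem hh (H.inv_mem hd'),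
        H.mul_mem (H.mul_mem (H.inv_mem hx) (H.inv_mem hd')) (H.inv_mem hx), ?_, ?_, ?_⟩
      · intro a ha
        rcases List.mem_cons.mp ha with rfl | ha
        · exact H.mul_mem (H.inv_mem hd') hb'
        · exact ht' a ha
      · rw [Q_cons, e1]
        simp only [Q_cons]
        exact move x h4 h d b' (Q x t')
      · simp only [List.length_cons] at e2 ⊢
        omega

theorem cs_nodup (h4 : ∀ g : G, g ^ 4 = 1) {H : Subgroup G} (hx : x * x ∈ H) :
    ∀ l : List G, (∀ a ∈ l, a ∈ H) → ¬ Red x H l → (Cs l).Nodup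
  | [], _, _ => by simp [Cs]
  | [_], _, _ => by simp [Cs]
  | h :: b :: t, hl, hr => by
    have hl' : ∀ a ∈ b :: t, a ∈ H := fun a ha => hl a (List.mem_cons_of_mem _ ha)
    have hr' : ¬ Red x H (b :: t) := fun h' => hr (red_cons x (hl h (by simp)) h')
    have ih := cs_nodup h4 hx (b :: t) hl' hr'
    simp only [Cs, List.nodup_cons, List.mem_map]
    refine ⟨?_, ih.map ?_⟩
    · rintro ⟨c, hc, e⟩
      have hc1 : c = 1 := by
        have : c⁻¹ = 1 := by
          have := congrArg (fun y => h⁻¹ * y) e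
          simpa using this
        simpa using this
      subst hc1
      obtain ⟨b', t', _, hb', ht', e1, e2⟩ := cs_spec x h4 hx _ hl' 1 hc
      obtain ⟨h0, hh0, l', hl1, hlen, e3⟩ := red_one x hx hb' ht'
      exact hr' ⟨h0, hh0, l', hl1, by omega, by rw [e1, e3]⟩
    · intro a b hab
      simpa using hab

theorem ext4 (h4 : ∀ g : G, g ^ 4 = 1) (H : Subgroup G) (hH : (H : Set G).Finite)
    (hx : x * x ∈ H) :
    ((Subgroup.closure (insert x (H : Set G)) : Subgroup G) : Set G).Finite := by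
  classical
  set m := hH.toFinset.card with hm
  -- bounded representation
  have key : ∀ n (l : List G), l.length = n → (∀ a ∈ l, a ∈ H) → ∀ h0 ∈ H,
      ∃ h1 ∈ H, ∃ l' : List G, (∀ a ∈ l', a ∈ H) ∧ l'.length ≤ m + 1 ∧
        h0 * Q x l = h1 * Q x l' := by
    intro n
    induction n using Nat.strong_induction_on with
    | _ n ih =>
      intro l hn hl h0 hh0
      by_cases hle : l.length ≤ m + 1
      · exact ⟨h0, hh0, l, hl, hle, rfl⟩
      · have hr : Red x H l := by
          by_contra hr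
          have hnd := cs_nodup x h4 hx l hl hr
          have hsub : (Cs l).toFinset ⊆ hH.toFinset := by
            intro c hc
            rw [List.mem_toFinset] at hc
            obtain ⟨b, t, hcH, _⟩ := cs_spec x h4 hx l hl c hc
            simpa using hcH
          have hcard := Finset.card_le_card hsub
          rw [List.toFinset_card_of_nodup hnd, cs_length] at hcard
          omega
        obtain ⟨h2, hh2, l2, hl2, hlen, e⟩ := hr
        obtain ⟨h1, hh1, l', hl', hlen', e'⟩ := ih l2.length (by omega) l2 rfl hl2 (h0 * h2)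
          (H.mul_mem hh0 hh2)
        exact ⟨h1, hh1, l', hl', hlen', by rw [e, ← mul_assoc, e']⟩
  haveI : Finite H := hH
  have hfin : (Set.image (fun p : H × List H => (p.1 : G) * Q x (p.2.map Subtype.val))
      (Set.univ ×ˢ {l : List H | l.length ≤ m + 1})).Finite :=
    (Set.finite_univ.prod (List.finite_length_le H (m + 1))).image _
  refine hfin.subset ?_
  intro g hg
  rw [SetLike.mem_coe] at hg
  have hrep : ∃ h0 ∈ H, ∃ l : List G, (∀ a ∈ l, a ∈ H) ∧ g = h0 * Q x l := by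
    induction hg using Subgroup.closure_induction_left with
    | one => exact ⟨1, H.one_mem, [], by simp, by simp⟩
    | mul_left y hy g hg ihg =>
      obtain ⟨h0, hh0, l, hl, rfl⟩ := ihg
      rcases Set.mem_insert_iff.mp hy with rfl | hy
      · refine ⟨1, H.one_mem, h0 :: l, ?_, by simp [mul_assoc]⟩
        intro a ha
        rcases List.mem_cons.mp ha with rfl | ha
        · exact hh0
        · exact hl a ha
      · exact ⟨y * h0, H.mul_mem hy hh0, l, hl, by rw [mul_assoc]⟩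
    | inv_mul_cancel y hy g hg ihg =>
      obtain ⟨h0, hh0, l, hl, rfl⟩ := ihg
      rcases Set.mem_insert_iff.mp hy with rfl | hy
      · refine ⟨(y * y)⁻¹, H.inv_mem hx, h0 :: l, ?_, by rw [Q_cons]; group⟩
        intro a ha
        rcases List.mem_cons.mp ha with rfl | ha
        · exact hh0
        · exact hl a ha
      · exact ⟨y⁻¹ * h0, H.mul_mem (H.inv_mem hy) hh0, l, hl, by rw [mul_assoc]⟩
  obtain ⟨h0, hh0, l, hl, rfl⟩ := hrep
  obtain ⟨h1, hh1, l', hl', hlen, e⟩ := key _ l rfl hl h0 hh0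
  refine ⟨(⟨h1, hh1⟩, l'.attach.map (fun a => ⟨a.1, hl' a.1 a.2⟩)), ⟨Set.mem_univ _, ?_⟩, ?_⟩
  · simpa using hlen
  · simp only [List.map_map]
    rw [e]
    congr 2
    exact List.attach_map_subtype_val l'

theorem fin4 (h4 : ∀ g : G, g ^ 4 = 1) (S : Finset G) :
    ((Subgroup.closure (S : Set G) : Subgroup G) : Set G).Finite := by
  classical
  induction S using Finset.induction_on with
  | empty => simp
  | insert x S _ ih =>
    have f1 := ext4 (x * x) h4 (Subgroup.closure (S : Set G)) ih (by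
      have : x * x * (x * x) = 1 := by rw [← h4 x]; simp only [pow_succ, pow_zero]; group
      rw [this]; exact Subgroup.one_mem _)
    have f2 := ext4 x h4 _ f1 (Subgroup.subset_closure (Set.mem_insert _ _))
    refine f2.subset ?_
    rw [SetLike.coe_subset_coe, Subgroup.closure_le, Finset.coe_insert]
    intro y hy
    rcases Set.mem_insert_iff.mp hy with rfl | hy
    · exact Subgroup.subset_closure (Set.mem_insert _ _)
    · refine Subgroup.subset_closure (Set.mem_insert_of_mem _ ?_)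
      exact Subgroup.subset_closure (Set.mem_insert_of_mem _ (Subgroup.subset_closure hy))

end four

end H15.Burn
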