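import Pool.Agent.H15R2.Tree

set_option maxRecDepth 100000
set_option maxHeartbeats 4000000

namespace H15.TC

/-- words with trivial cube -/
def twA : List (List ℕ) := [[0], [2], [1], [3]]
/-- base relators -/
def relsA : List (List ℕ) := [[0, 0, 0], [2, 2, 2], [0, 2, 0, 2, 0, 2, 0, 2], [0, 3, 0, 3, 0, 3, 0, 3]]
/-- goals -/
def goalsA : List (List ℕ) := [[0]]

def rA_2 : List (List ℕ) := [[0, 0, 0], [2, 2, 2], [0, 2, 0, 2, 0, 2, 0, 2], [0, 3, 0, 3, 0, 3, 0, 3], [1, 3, 0, 2, 1, 2, 1, 3, 0, 2, 1, 2, 1, 3, 0, 2, 1, 2]]
theorem okA_2 : OK twA goalsA rA_2 :=
  .leaf _ [857699231315683836608847134929648753713359303122346146311293733325381078489705291677179166700572517048421508288933513268274600323119028064615712084360779002209665874721082241276895534267748396988891391511262324296125802594200228570862529551750122529006809589462437671241034897566953810236831726997609035338661421815922609527230300218064180018137837615998514618363764181341001867962369830843103774273232543800405192073941887221761, 9847683779570767221367292746443997629755130972819066246939938594465476248102236398839263043740507923524400733563384621031321485221514884868507237367379211397982876336612] [863319852517561949317307141554421766198485794824027870357116517483522851730550583296334400671652071768361702047706760430715608396629341565331611329800951543971533224020291320599949121957774084612089879820618432513]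 0 [0] rfl (by decide +kernel)
def rA_3 : List (List ℕ) := [[0, 0, 0], [2, 2, 2], [0, 2, 0, 2, 0, 2, 0, 2], [0, 3, 0, 3, 0, 3, 0, 3], [1, 3, 0, 2, 1, 2, 1, 3, 0, 2, 1, 2, 1, 3, 0, 2, 1, 2, 1, 3, 0, 2, 1, 2]]
theorem okA_3 : OK twA goalsA rA_3 :=
  .leaf _ [863139194931862720845099123595798894896520952527484498846393720848790257064956508573342103596216576679283173873393522775603276861037349758909360135340035764756630556371251185812129538025964451881213828219988015245725131429363868204967696148656793406396150547018175627872868883131557222959827867611698040140886991403552872758099384660968238382535229633052749136530309494783770157244662523592795896796891348457811031003552181911553, 1731718343968675507331713460431405112504370270900686975417398094811489690766790391048528517235904735067355535053616147384250653147735988224222429392073636948731249412943589570082803466968418979509014341236027913638987979901095118817115988922953070372950902492591247581276647331587489973864603885786045754788499472818134897322510073094711567976134179437929395673130592661519819580405951234532109193717576100500673167888776526037019, 6434029660398677846531037891821939615276869061620714289759170] [15629968403448434387798143425594320284361940105744511346841801891419003543251617277783207514961183924353303211677586128416232301338499673076613069667561027133505429478760166973613984792844272875140901177034521290945309578052959705071707781960720895831240685600454772283224958778094005434954602813000723202052]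 0 [0] rfl (by decide +kernel)
theorem okA_1 : OK twA goalsA relsA :=
  .node _ rA_2 rA_3 [] [1] [1, 2] [2] (by decide +kernel) (by decide +kernel) (by decide +kernel) okA_2 okA_3

end H15.TC
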