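import Pool.Agent.H15R2.Struct

/-!
Local finiteness from the structure theory.
-/

universe u

namespace H15.Struct

open Subgroup

variable {G : Type u} [Group G]

theorem finite_exp3 (hfg : Group.FG G) (h : ∀ g : G, g ^ 3 = 1) : Finite G := by
  obtain ⟨S, hS⟩ := Group.fg_def.mp hfg
  have h1 := H15.Burn.fin3 h S
  rw [hS] at h1
  exact Set.finite_univ_iff.mp (by simpa using h1)

theorem finite_exp4 (hfg : Group.FG G) (h : ∀ g : G, g ^ 4 = 1) : Finite G := by
  obtain ⟨S, hS⟩ := Group.fg_def.mp hfg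
  have h1 := H15.Burn.fin4 h S
  rw [hS] at h1
  exact Set.finite_univ_iff.mp (by simpa using h1)

theorem finite_of_index (A : Subgroup G) (hi : A.index ≠ 0) (hA : Finite A) : Finite G := by
  have : A.FiniteIndex := ⟨hi⟩
  have h1 : Finite (G ⧸ A) := inferInstance
  exact Finite.of_equiv _ (Subgroup.groupEquivQuotientProdSubgroup (s := A)).symm

section

variable (H : HT G) (K : Claims G)

include H K

theorem cover {x y : G} (hx : x ^ 3 = 1) (hy : y ^ 3 = 1) (hx1 : x ≠ 1) (hxy : near x y)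
    (hne : y ≠ x) {z : G} (hz : z ^ 3 = 1) :
    z = 1 ∨ x⁻¹ * z ∈ S H K x hx hx1 ∨ x⁻¹ * z⁻¹ ∈ S H K x hx hx1 := by
  have hS : ∀ w : G, w ^ 3 = 1 → near x w → x⁻¹ * w ∈ S H K x hx hx1 := by
    intro w hw h
    rw [mem_S]
    exact ⟨h, by rw [mul_inv_cancel_left]; exact hw⟩
  have hz' := pow_inv_one hz
  rcases H x⁻¹ z (pow_inv_one hx) hz with h1 | h1
  swap
  · right; left; exact hS z hz h1
  rcases H x⁻¹ z⁻¹ (pow_inv_one hx) hz' with h2 | h2
  swap
  · right; right; exact hS _ hz' h2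
  have hxz : (x * z) ^ 3 = 1 := by
    have h4 : (x⁻¹ * z⁻¹)⁻¹ = z * x := by group
    have h5 := pow_inv_one h2
    rw [h4] at h5
    exact pow_comm_one h5
  have hxz' : (x * z⁻¹) ^ 3 = 1 := by
    have h4 : (x⁻¹ * z)⁻¹ = z⁻¹ * x := by group
    have h5 := pow_inv_one h1
    rw [h4] at h5
    exact pow_comm_one h5
  have mxy := near_mul H K hx hy hxy
  have fin : (x⁻¹ * y = 1 ∨ x = 1 ∨ z = 1 ∨ x * z = 1 ∨ x⁻¹ * z = 1) →
      z = 1 ∨ x⁻¹ * z ∈ S H K x hx hx1 ∨ x⁻¹ * z⁻¹ ∈ S H K x hx hx1 := by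
    rintro (h | h | h | h | h)
    · rw [inv_mul_eq_one] at h; exact absurd h.symm hne
    · exact absurd h hx1
    · exact Or.inl h
    · right; right
      have h3 : z⁻¹ = x := by
        rw [mul_eq_one_iff_eq_inv] at h; exact h.symm
      rw [h3, inv_mul_cancel]; exact one_mem _
    · right; left
      rw [h]; exact one_mem _
  apply fin
  have hyz' : (y⁻¹ * z) ^ 3 = 1 → (y * z⁻¹) ^ 3 = 1 := by
    intro h
    have h4 : (y⁻¹ * z)⁻¹ = z⁻¹ * y := by group
    have h5 := pow_inv_one h
    rw [h4] at h5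
    exact pow_comm_one h5
  rcases H y z hy hz with h3 | h3
  · rcases H y z⁻¹ hy hz' with h4 | h4
    · exact K.B133 x y z hx hy hz hxy mxy hxz hxz' h3 h4
    · exact K.B134 x y z hx hy hz hxy mxy hxz hxz' h3 h4
  · rcases cubeA H K hy hz with h5 | h5
    · have h6 := one_of_34 h5 h3
      -- y * z = 1
      have h7 : z = y⁻¹ := by rw [mul_eq_one_iff_inv_eq] at h6; exact h6.symm
      have h8 : (y * z⁻¹) ^ 3 = 1 := by
        rw [h7, inv_inv, ← pow_two, ← pow_mul, mul_comm 2 3, pow_mul, hy, one_pow]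
      exact K.B133 x y z hx hy hz hxy mxy hxz hxz' h5 h8
    · exact K.B143 x y z hx hy hz hxy mxy hxz hxz' h3 (hyz' h5)

theorem S_zpow {x : G} {hx : x ^ 3 = 1} {hx1 : x ≠ 1} {s : G} (hs : s ∈ S H K x hx hx1)
    (l : ℤ) : x ^ l * s * (x ^ l)⁻¹ ∈ S H K x hx hx1 := by
  have h := zpow_mem (x_mem_normalizer H K (hx := hx) (hx1 := hx1)) l
  exact (Subgroup.mem_normalizer_iff.mp h s).mp hs

/-- the subgroup `S⟨x⟩` -/
def M (x : G) (hx : x ^ 3 = 1) (hx1 : x ≠ 1) : Subgroup G where
  carrier := {m | ∃ k : ℤ, x ^ k * m ∈ S H K x hx hx1}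
  one_mem' := ⟨0, by simp [one_mem]⟩
  mul_mem' := by
    rintro m n ⟨k, hk⟩ ⟨l, hl⟩
    refine ⟨k + l, ?_⟩
    have h1 := mul_mem (S_zpow H K hk l) hl
    have h2 : x ^ (k + l) * (m * n) = x ^ l * (x ^ k * m) * (x ^ l)⁻¹ * (x ^ l * n) := by group
    rw [h2]; exact h1
  inv_mem' := by
    rintro m ⟨k, hk⟩
    refine ⟨-k, ?_⟩
    have h1 := S_zpow H K (inv_mem hk) (-k)
    have h2 : x ^ (-k) * m⁻¹ = x ^ (-k) * (x ^ k * m)⁻¹ * (x ^ (-k))⁻¹ := by group
    rw [h2]; exact h1

theorem closure_le_M {x y : G} (hx : x ^ 3 = 1) (hy : y ^ 3 = 1) (hx1 : x ≠ 1)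
    (hxy : near x y) (hne : y ≠ x) :
    closure {t : G | t ^ 3 = 1} ≤ M H K x hx hx1 := by
  rw [closure_le]
  intro z hz
  rcases cover H K hx hy hx1 hxy hne hz with h | h | h
  · rw [h]; exact one_mem _
  · exact ⟨-1, by rw [zpow_neg_one]; exact h⟩
  · have : z⁻¹ ∈ M H K x hx hx1 := ⟨-1, by rw [zpow_neg_one]; exact h⟩
    have := inv_mem this
    rw [inv_inv] at this; exact this

/-- finitely generated subgroups of `S⟨x⟩` are finite -/
theorem finite_M {x : G} (hx : x ^ 3 = 1) (hx1 : x ≠ 1) (F : Subgroup G) (hF : F.FG)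
    (hFM : F ≤ M H K x hx hx1) : Finite F := by
  set F' : Subgroup G := F ⊔ zpowers x with hF'
  have hxM : x ∈ M H K x hx hx1 := ⟨-1, by simp [one_mem]⟩
  have hF'M : F' ≤ M H K x hx hx1 := sup_le hFM (by rw [zpowers_le]; exact hxM)
  have hzfg : (zpowers x).FG := ⟨{x}, by simp [zpowers_eq_closure]⟩
  have hF'fg : Group.FG F' := (Group.fg_iff_subgroup_fg F').mpr (hF.sup hzfg)
  have hxF' : x ∈ F' := (le_sup_right : zpowers x ≤ F') (mem_zpowers x)
  have hzfin : Finite (zpowers x) := by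
    have : IsOfFinOrder x := isOfFinOrder_iff_pow_eq_one.mpr ⟨3, by norm_num, hx⟩
    exact this.finite_zpowers
  have hqfin : Finite (F' ⧸ (S H K x hx hx1).subgroupOf F') := by
    refine Finite.of_surjective
      (fun t : zpowers x => (QuotientGroup.mk (⟨t.1, (le_sup_right : zpowers x ≤ F') t.2⟩ : F') :
        F' ⧸ (S H K x hx hx1).subgroupOf F')) ?_
    intro q
    obtain ⟨f, rfl⟩ := QuotientGroup.mk_surjective q
    obtain ⟨k, hk⟩ := hF'M f.2
    refine ⟨⟨x ^ (-k), ⟨-k, rfl⟩⟩, ?_⟩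
    rw [QuotientGroup.eq]
    show (x ^ (-k))⁻¹ * f.1 ∈ S H K x hx hx1
    rw [zpow_neg, inv_inv]; exact hk
  have hfi : ((S H K x hx hx1).subgroupOf F').FiniteIndex :=
    Subgroup.finiteIndex_of_finite_quotient
  have hidx : ((S H K x hx hx1).subgroupOf F').index ≠ 0 := hfi.index_ne_zero
  have hSfg : Group.FG ((S H K x hx hx1).subgroupOf F') :=
    Subgroup.fg_of_index_ne_zero _
  have hSfin : Finite ((S H K x hx hx1).subgroupOf F') := by
    refine finite_exp4 hSfg ?_
    intro s
    have : s.1.1 ∈ S H K x hx hx1 := s.2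
    rw [mem_S] at this
    ext; exact this.1
  have hfin : Finite F' := finite_of_index _ hidx hSfin
  exact Finite.of_injective (Subgroup.inclusion (le_sup_left : F ≤ F'))
    (Subgroup.inclusion_injective _)

/-- elements of `S⟨x⟩` have order dividing 3 or 4 -/
theorem M_orders {x : G} {hx : x ^ 3 = 1} {hx1 : x ≠ 1} {m : G} (hm : m ∈ M H K x hx hx1) :
    m ^ 3 = 1 ∨ m ^ 4 = 1 := by
  obtain ⟨k, hk⟩ := hm
  have hx3 : x ^ (3 : ℤ) = 1 := by exact_mod_cast hx
  have hk' : x ^ k = x ^ (k % 3) := by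
    conv_lhs => rw [← Int.emod_add_mul_ediv k 3]
    rw [zpow_add, zpow_mul, hx3, one_zpow, mul_one]
  rw [hk'] at hk
  have h0 : 0 ≤ k % 3 := Int.emod_nonneg k (by norm_num)
  have h3 : k % 3 < 3 := Int.emod_lt_of_pos k (by norm_num)
  rcases (by omega : k % 3 = 0 ∨ k % 3 = 1 ∨ k % 3 = 2) with h | h | h
  · rw [h, zpow_zero, one_mul] at hk
    exact Or.inr hk.1
  · rw [h, zpow_one] at hk
    left
    have h1 := inv_mem hk
    rw [mem_S] at h1
    have h2 : x * (x * m)⁻¹ = x * m⁻¹ * x⁻¹ := by group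
    have h4 := h1.2
    rw [h2, conj_pow] at h4
    have h5 : m⁻¹ ^ 3 = 1 := by
      have : m⁻¹ ^ 3 = x⁻¹ * (x * m⁻¹ ^ 3 * x⁻¹) * x := by group
      rw [this, h4]; simp
    rw [inv_pow, inv_eq_one] at h5; exact h5
  · rw [h] at hk
    left
    have h1 := hk.2
    have h2 : x * (x ^ (2 : ℤ) * m) = m := by
      have : x * (x ^ (2 : ℤ) * m) = x ^ (3 : ℤ) * m := by group
      rw [this, hx3, one_mul]
    rw [h2] at h1; exact h1

/-- elements of the subgroup generated by the elements of order 3 have order dividing 3 or 4 -/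
theorem closure_orders {m : G} (hm : m ∈ closure {t : G | t ^ 3 = 1}) :
    m ^ 3 = 1 ∨ m ^ 4 = 1 := by
  by_cases hc : ∀ x y : G, x ^ 3 = 1 → y ^ 3 = 1 → near x y → y = x
  · left
    let T : Subgroup G :=
      { carrier := {t | t ^ 3 = 1}
        one_mem' := one_pow 3
        mul_mem' := by
          intro a b ha hb
          rcases H a b ha hb with h | h
          · exact h
          · have h1 : near a⁻¹ b := by unfold near; rw [inv_inv]; exact h
            have h2 := hc a⁻¹ b (pow_inv_one ha) hb h1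
            show (a * b) ^ 3 = 1
            rw [h2, mul_inv_cancel, one_pow]
        inv_mem' := by intro a ha; exact pow_inv_one ha }
    have hT : closure {t : G | t ^ 3 = 1} ≤ T := by
      rw [closure_le]; intro z hz; exact hz
    exact hT hm
  · push Not at hc
    obtain ⟨x, y, hx, hy, hxy, hne⟩ := hc
    have hx1 : x ≠ 1 := by
      intro h
      have h1 : y ^ 4 = 1 := by
        have : (x⁻¹ * y) ^ 4 = 1 := hxy
        rw [h, inv_one, one_mul] at this; exact this
      exact hne (by rw [one_of_34 hy h1, h])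
    exact M_orders H K (closure_le_M H K hx hy hx1 hxy hne hm)

/-- **the subgroup generated by the elements of order 3 is locally finite** -/
theorem finite_closure (F : Subgroup G) (hF : F.FG)
    (hFT : F ≤ closure {t : G | t ^ 3 = 1}) : Finite F := by
  by_cases hc : ∀ x y : G, x ^ 3 = 1 → y ^ 3 = 1 → near x y → y = x
  · -- the elements with trivial cube form a subgroup
    let T : Subgroup G :=
      { carrier := {t | t ^ 3 = 1}
        one_mem' := one_pow 3
        mul_mem' := by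
          intro a b ha hb
          rcases H a b ha hb with h | h
          · exact h
          · have h1 : near a⁻¹ b := by unfold near; rw [inv_inv]; exact h
            have h2 := hc a⁻¹ b (pow_inv_one ha) hb h1
            show (a * b) ^ 3 = 1
            rw [h2, mul_inv_cancel, one_pow]
        inv_mem' := by intro a ha; exact pow_inv_one ha }
    have hT : closure {t : G | t ^ 3 = 1} ≤ T := by
      rw [closure_le]; intro z hz; exact hz
    refine finite_exp3 ((Group.fg_iff_subgroup_fg F).mpr hF) ?_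
    intro f
    have : f.1 ^ 3 = 1 := hT (hFT f.2)
    ext; exact this
  · push Not at hc
    obtain ⟨x, y, hx, hy, hxy, hne⟩ := hc
    have hx1 : x ≠ 1 := by
      intro h
      have h1 : y ^ 4 = 1 := by
        have : (x⁻¹ * y) ^ 4 = 1 := hxy
        rw [h, inv_one, one_mul] at this; exact this
      exact hne (by rw [one_of_34 hy h1, h])
    exact finite_M H K hx hx1 F hF (hFT.trans (closure_le_M H K hx hy hx1 hxy hne))

end

/-- finitely generated groups of exponent dividing 12 with property `HT` are finite -/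
theorem finite_exp12 (hfg : Group.FG G) (h12 : ∀ g : G, g ^ 12 = 1) (H : HT G) (K : Claims G) :
    Finite G := by
  set N : Subgroup G := closure {t : G | t ^ 3 = 1} with hN
  have hNn : N.Normal := by
    refine ⟨fun n hn g => ?_⟩
    induction hn using closure_induction with
    | mem t ht =>
      refine subset_closure ?_
      have ht' : t ^ 3 = 1 := ht
      show (g * t * g⁻¹) ^ 3 = 1
      rw [conj_pow, ht']; simp
    | one => simp [one_mem]
    | mul a b _ _ ha hb =>
      have : g * (a * b) * g⁻¹ = (g * a * g⁻¹) * (g * b * g⁻¹) := by group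
      rw [this]; exact mul_mem ha hb
    | inv a _ ha =>
      have : g * a⁻¹ * g⁻¹ = (g * a * g⁻¹)⁻¹ := by group
      rw [this]; exact inv_mem ha
  have hQ : Finite (G ⧸ N) := by
    have hfgQ : Group.FG (G ⧸ N) := QuotientGroup.fg N
    refine finite_exp4 hfgQ ?_
    intro q
    obtain ⟨g, rfl⟩ := QuotientGroup.mk_surjective q
    rw [← QuotientGroup.mk_pow, QuotientGroup.eq_one_iff]
    refine subset_closure ?_
    show (g ^ 4) ^ 3 = 1
    rw [← pow_mul]; exact h12 g
  have hfi : N.FiniteIndex := Subgroup.finiteIndex_of_finite_quotient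
  have hidx : N.index ≠ 0 := hfi.index_ne_zero
  have hNfg : N.FG := (Group.fg_iff_subgroup_fg N).mp (Subgroup.fg_of_index_ne_zero _)
  exact finite_of_index N hidx (finite_closure H K N hNfg le_rfl)

end H15.Struct
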