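import Pool.Agent.H15R2.CertA
import Pool.Agent.H15R2.CertB133
import Pool.Agent.H15R2.CertB134
import Pool.Agent.H15R2.CertB143
import Pool.Agent.H15R2.CertB233
import Pool.Agent.H15R2.CertB243
import Pool.Agent.H15R2.CertC
import Pool.Agent.H15R2.Main

/-!
The presentation facts, from the certificates.
-/

universe u

namespace H15.Struct

open H15.TC

set_option linter.unusedSimpArgs false

variable {G : Type u} [Group G]

/-- three generators -/
def gen3 (x y z : G) : ℕ → G
  | 0 => x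
  | 1 => y
  | _ => z

theorem gen3_cube {x y z : G} (hx : x ^ 3 = 1) (hy : y ^ 3 = 1) (hz : z ^ 3 = 1) :
    ∀ i, gen3 x y z i ^ 3 = 1
  | 0 => hx
  | 1 => hy
  | _ + 2 => hz

theorem lv0 (x y z : G) : lv (gen3 x y z) 0 = x := by simp [lv, gen3]
theorem lv1 (x y z : G) : lv (gen3 x y z) 1 = x⁻¹ := by simp [lv, gen3]
theorem lv2 (x y z : G) : lv (gen3 x y z) 2 = y := by simp [lv, gen3]
theorem lv3 (x y z : G) : lv (gen3 x y z) 3 = y⁻¹ := by simp [lv, gen3]
theorem lv4 (x y z : G) : lv (gen3 x y z) 4 = z := by simp [lv, gen3]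
theorem lv5 (x y z : G) : lv (gen3 x y z) 5 = z⁻¹ := by simp [lv, gen3]

theorem claimA (H : HT G) (x y : G) (h0 : x ^ 3 = 1) (h1 : y ^ 3 = 1) (h2 : (x * y) ^ 4 = 1) (h3 : (x * y⁻¹) ^ 4 = 1) :
    x = 1 := by
  have htw : ∀ w ∈ twA, ev (gen3 x y 1) w ^ 3 = 1 := by
    intro w hw
    simp only [twA, List.mem_cons, List.not_mem_nil, or_false] at hw
    rcases hw with rfl | rfl | rfl | rfl
    · simp only [ev_cons, ev_nil, mul_one, lv0, lv1, lv2, lv3, lv4, lv5]; exact h0
    · simp only [ev_cons, ev_nil, mul_one, lv0, lv1, lv2, lv3, lv4, lv5]; exact h1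
    · have e : ev (gen3 x y 1) [1] = (x)⁻¹ := by
        simp only [ev_cons, ev_nil, mul_one, lv0, lv1, lv2, lv3, lv4, lv5]; try group
      rw [e]; exact pow_inv_one h0
    · have e : ev (gen3 x y 1) [3] = (y)⁻¹ := by
        simp only [ev_cons, ev_nil, mul_one, lv0, lv1, lv2, lv3, lv4, lv5]; try group
      rw [e]; exact pow_inv_one h1
  have hrl : ∀ r ∈ relsA, ev (gen3 x y 1) r = 1 := by
    intro r hr
    simp only [relsA, List.mem_cons, List.not_mem_nil, or_false] at hr
    rcases hr with rfl | rfl | rfl | rfl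
    · simp only [pow_succ, pow_zero, one_mul, mul_assoc] at h0
      simp only [ev_cons, ev_nil, mul_one, lv0, lv1, lv2, lv3, lv4, lv5]; exact h0
    · simp only [pow_succ, pow_zero, one_mul, mul_assoc] at h1
      simp only [ev_cons, ev_nil, mul_one, lv0, lv1, lv2, lv3, lv4, lv5]; exact h1
    · simp only [pow_succ, pow_zero, one_mul, mul_assoc] at h2
      simp only [ev_cons, ev_nil, mul_one, lv0, lv1, lv2, lv3, lv4, lv5]; exact h2
    · simp only [pow_succ, pow_zero, one_mul, mul_assoc] at h3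
      simp only [ev_cons, ev_nil, mul_one, lv0, lv1, lv2, lv3, lv4, lv5]; exact h3
  obtain ⟨g, hg, h⟩ := ok_sound (gen := gen3 x y 1) (tw := twA) (goals := goalsA)
    (gen3_cube h0 h1 (one_pow 3)) H htw okA_1 hrl
  · simp only [goalsA, List.mem_cons, List.not_mem_nil, or_false] at hg
    subst hg
    simp only [ev_cons, ev_nil, mul_one, ← mul_assoc, lv0, lv1, lv2, lv3, lv4, lv5] at h
    exact h

theorem claimB133 (H : HT G) (x y z : G) (h0 : x ^ 3 = 1) (h1 : y ^ 3 = 1) (h2 : z ^ 3 = 1) (h3 : (x⁻¹ * y) ^ 4 = 1) (h4 : (x * y) ^ 3 = 1) (h5 : (x * z) ^ 3 = 1) (h6 : (x * z⁻¹) ^ 3 = 1) (h7 : (y * z) ^ 3 = 1) (h8 : (y * z⁻¹) ^ 3 = 1) :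
    x⁻¹ * y = 1 ∨ x = 1 ∨ z = 1 ∨ x * z = 1 ∨ x⁻¹ * z = 1 := by
  have htw : ∀ w ∈ twB133, ev (gen3 x y z) w ^ 3 = 1 := by
    intro w hw
    simp only [twB133, List.mem_cons, List.not_mem_nil, or_false] at hw
    rcases hw with rfl | rfl | rfl | rfl | rfl | rfl | rfl | rfl | rfl | rfl | rfl | rfl | rfl | rfl | rfl | rfl
    · simp only [ev_cons, ev_nil, mul_one, lv0, lv1, lv2, lv3, lv4, lv5]; exact h0
    · simp only [ev_cons, ev_nil, mul_one, lv0, lv1, lv2, lv3, lv4, lv5]; exact h1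
    · simp only [ev_cons, ev_nil, mul_one, lv0, lv1, lv2, lv3, lv4, lv5]; exact h2
    · simp only [ev_cons, ev_nil, mul_one, lv0, lv1, lv2, lv3, lv4, lv5]; exact h4
    · simp only [ev_cons, ev_nil, mul_one, lv0, lv1, lv2, lv3, lv4, lv5]; exact h5
    · simp only [ev_cons, ev_nil, mul_one, lv0, lv1, lv2, lv3, lv4, lv5]; exact h6
    · simp only [ev_cons, ev_nil, mul_one, lv0, lv1, lv2, lv3, lv4, lv5]; exact h7
    · simp only [ev_cons, ev_nil, mul_one, lv0, lv1, lv2, lv3, lv4, lv5]; exact h8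
    · have e : ev (gen3 x y z) [1] = (x)⁻¹ := by
        simp only [ev_cons, ev_nil, mul_one, lv0, lv1, lv2, lv3, lv4, lv5]; try group
      rw [e]; exact pow_inv_one h0
    · have e : ev (gen3 x y z) [3] = (y)⁻¹ := by
        simp only [ev_cons, ev_nil, mul_one, lv0, lv1, lv2, lv3, lv4, lv5]; try group
      rw [e]; exact pow_inv_one h1
    · have e : ev (gen3 x y z) [5] = (z)⁻¹ := by
        simp only [ev_cons, ev_nil, mul_one, lv0, lv1, lv2, lv3, lv4, lv5]; try group
      rw [e]; exact pow_inv_one h2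
    · have e : ev (gen3 x y z) [3, 1] = (x * y)⁻¹ := by
        simp only [ev_cons, ev_nil, mul_one, lv0, lv1, lv2, lv3, lv4, lv5]; try group
      rw [e]; exact pow_inv_one h4
    · have e : ev (gen3 x y z) [5, 1] = (x * z)⁻¹ := by
        simp only [ev_cons, ev_nil, mul_one, lv0, lv1, lv2, lv3, lv4, lv5]; try group
      rw [e]; exact pow_inv_one h5
    · have e : ev (gen3 x y z) [4, 1] = (x * z⁻¹)⁻¹ := by
        simp only [ev_cons, ev_nil, mul_one, lv0, lv1, lv2, lv3, lv4, lv5]; try group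
      rw [e]; exact pow_inv_one h6
    · have e : ev (gen3 x y z) [5, 3] = (y * z)⁻¹ := by
        simp only [ev_cons, ev_nil, mul_one, lv0, lv1, lv2, lv3, lv4, lv5]; try group
      rw [e]; exact pow_inv_one h7
    · have e : ev (gen3 x y z) [4, 3] = (y * z⁻¹)⁻¹ := by
        simp only [ev_cons, ev_nil, mul_one, lv0, lv1, lv2, lv3, lv4, lv5]; try group
      rw [e]; exact pow_inv_one h8
  have hrl : ∀ r ∈ relsB133, ev (gen3 x y z) r = 1 := by
    intro r hr
    simp only [relsB133, List.mem_cons, List.not_mem_nil, or_false] at hr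
    rcases hr with rfl | rfl | rfl | rfl | rfl | rfl | rfl | rfl | rfl
    · simp only [pow_succ, pow_zero, one_mul, mul_assoc] at h0
      simp only [ev_cons, ev_nil, mul_one, lv0, lv1, lv2, lv3, lv4, lv5]; exact h0
    · simp only [pow_succ, pow_zero, one_mul, mul_assoc] at h1
      simp only [ev_cons, ev_nil, mul_one, lv0, lv1, lv2, lv3, lv4, lv5]; exact h1
    · simp only [pow_succ, pow_zero, one_mul, mul_assoc] at h2
      simp only [ev_cons, ev_nil, mul_one, lv0, lv1, lv2, lv3, lv4, lv5]; exact h2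
    · simp only [pow_succ, pow_zero, one_mul, mul_assoc] at h3
      simp only [ev_cons, ev_nil, mul_one, lv0, lv1, lv2, lv3, lv4, lv5]; exact h3
    · simp only [pow_succ, pow_zero, one_mul, mul_assoc] at h4
      simp only [ev_cons, ev_nil, mul_one, lv0, lv1, lv2, lv3, lv4, lv5]; exact h4
    · simp only [pow_succ, pow_zero, one_mul, mul_assoc] at h5
      simp only [ev_cons, ev_nil, mul_one, lv0, lv1, lv2, lv3, lv4, lv5]; exact h5
    · simp only [pow_succ, pow_zero, one_mul, mul_assoc] at h6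
      simp only [ev_cons, ev_nil, mul_one, lv0, lv1, lv2, lv3, lv4, lv5]; exact h6
    · simp only [pow_succ, pow_zero, one_mul, mul_assoc] at h7
      simp only [ev_cons, ev_nil, mul_one, lv0, lv1, lv2, lv3, lv4, lv5]; exact h7
    · simp only [pow_succ, pow_zero, one_mul, mul_assoc] at h8
      simp only [ev_cons, ev_nil, mul_one, lv0, lv1, lv2, lv3, lv4, lv5]; exact h8
  obtain ⟨g, hg, h⟩ := ok_sound (gen := gen3 x y z) (tw := twB133) (goals := goalsB133)
    (gen3_cube h0 h1 h2) H htw okB133_1 hrl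
  · simp only [goalsB133, List.mem_cons, List.not_mem_nil, or_false] at hg
    rcases hg with rfl | rfl | rfl | rfl | rfl
    · simp only [ev_cons, ev_nil, mul_one, ← mul_assoc, lv0, lv1, lv2, lv3, lv4, lv5] at h
      simp only [h, true_or, or_true]
    · simp only [ev_cons, ev_nil, mul_one, ← mul_assoc, lv0, lv1, lv2, lv3, lv4, lv5] at h
      simp only [h, true_or, or_true]
    · simp only [ev_cons, ev_nil, mul_one, ← mul_assoc, lv0, lv1, lv2, lv3, lv4, lv5] at h
      simp only [h, true_or, or_true]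
    · simp only [ev_cons, ev_nil, mul_one, ← mul_assoc, lv0, lv1, lv2, lv3, lv4, lv5] at h
      simp only [h, true_or, or_true]
    · simp only [ev_cons, ev_nil, mul_one, ← mul_assoc, lv0, lv1, lv2, lv3, lv4, lv5] at h
      simp only [h, true_or, or_true]

theorem claimB134 (H : HT G) (x y z : G) (h0 : x ^ 3 = 1) (h1 : y ^ 3 = 1) (h2 : z ^ 3 = 1) (h3 : (x⁻¹ * y) ^ 4 = 1) (h4 : (x * y) ^ 3 = 1) (h5 : (x * z) ^ 3 = 1) (h6 : (x * z⁻¹) ^ 3 = 1) (h7 : (y * z) ^ 3 = 1) (h8 : (y * z⁻¹) ^ 4 = 1) :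
    x⁻¹ * y = 1 ∨ x = 1 ∨ z = 1 ∨ x * z = 1 ∨ x⁻¹ * z = 1 := by
  have htw : ∀ w ∈ twB134, ev (gen3 x y z) w ^ 3 = 1 := by
    intro w hw
    simp only [twB134, List.mem_cons, List.not_mem_nil, or_false] at hw
    rcases hw with rfl | rfl | rfl | rfl | rfl | rfl | rfl | rfl | rfl | rfl | rfl | rfl | rfl | rfl
    · simp only [ev_cons, ev_nil, mul_one, lv0, lv1, lv2, lv3, lv4, lv5]; exact h0
    · simp only [ev_cons, ev_nil, mul_one, lv0, lv1, lv2, lv3, lv4, lv5]; exact h1
    · simp only [ev_cons, ev_nil, mul_one, lv0, lv1, lv2, lv3, lv4, lv5]; exact h2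
    · simp only [ev_cons, ev_nil, mul_one, lv0, lv1, lv2, lv3, lv4, lv5]; exact h4
    · simp only [ev_cons, ev_nil, mul_one, lv0, lv1, lv2, lv3, lv4, lv5]; exact h5
    · simp only [ev_cons, ev_nil, mul_one, lv0, lv1, lv2, lv3, lv4, lv5]; exact h6
    · simp only [ev_cons, ev_nil, mul_one, lv0, lv1, lv2, lv3, lv4, lv5]; exact h7
    · have e : ev (gen3 x y z) [1] = (x)⁻¹ := by
        simp only [ev_cons, ev_nil, mul_one, lv0, lv1, lv2, lv3, lv4, lv5]; try group
      rw [e]; exact pow_inv_one h0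
    · have e : ev (gen3 x y z) [3] = (y)⁻¹ := by
        simp only [ev_cons, ev_nil, mul_one, lv0, lv1, lv2, lv3, lv4, lv5]; try group
      rw [e]; exact pow_inv_one h1
    · have e : ev (gen3 x y z) [5] = (z)⁻¹ := by
        simp only [ev_cons, ev_nil, mul_one, lv0, lv1, lv2, lv3, lv4, lv5]; try group
      rw [e]; exact pow_inv_one h2
    · have e : ev (gen3 x y z) [3, 1] = (x * y)⁻¹ := by
        simp only [ev_cons, ev_nil, mul_one, lv0, lv1, lv2, lv3, lv4, lv5]; try group
      rw [e]; exact pow_inv_one h4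
    · have e : ev (gen3 x y z) [5, 1] = (x * z)⁻¹ := by
        simp only [ev_cons, ev_nil, mul_one, lv0, lv1, lv2, lv3, lv4, lv5]; try group
      rw [e]; exact pow_inv_one h5
    · have e : ev (gen3 x y z) [4, 1] = (x * z⁻¹)⁻¹ := by
        simp only [ev_cons, ev_nil, mul_one, lv0, lv1, lv2, lv3, lv4, lv5]; try group
      rw [e]; exact pow_inv_one h6
    · have e : ev (gen3 x y z) [5, 3] = (y * z)⁻¹ := by
        simp only [ev_cons, ev_nil, mul_one, lv0, lv1, lv2, lv3, lv4, lv5]; try group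
      rw [e]; exact pow_inv_one h7
  have hrl : ∀ r ∈ relsB134, ev (gen3 x y z) r = 1 := by
    intro r hr
    simp only [relsB134, List.mem_cons, List.not_mem_nil, or_false] at hr
    rcases hr with rfl | rfl | rfl | rfl | rfl | rfl | rfl | rfl | rfl
    · simp only [pow_succ, pow_zero, one_mul, mul_assoc] at h0
      simp only [ev_cons, ev_nil, mul_one, lv0, lv1, lv2, lv3, lv4, lv5]; exact h0
    · simp only [pow_succ, pow_zero, one_mul, mul_assoc] at h1
      simp only [ev_cons, ev_nil, mul_one, lv0, lv1, lv2, lv3, lv4, lv5]; exact h1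
    · simp only [pow_succ, pow_zero, one_mul, mul_assoc] at h2
      simp only [ev_cons, ev_nil, mul_one, lv0, lv1, lv2, lv3, lv4, lv5]; exact h2
    · simp only [pow_succ, pow_zero, one_mul, mul_assoc] at h3
      simp only [ev_cons, ev_nil, mul_one, lv0, lv1, lv2, lv3, lv4, lv5]; exact h3
    · simp only [pow_succ, pow_zero, one_mul, mul_assoc] at h4
      simp only [ev_cons, ev_nil, mul_one, lv0, lv1, lv2, lv3, lv4, lv5]; exact h4
    · simp only [pow_succ, pow_zero, one_mul, mul_assoc] at h5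
      simp only [ev_cons, ev_nil, mul_one, lv0, lv1, lv2, lv3, lv4, lv5]; exact h5
    · simp only [pow_succ, pow_zero, one_mul, mul_assoc] at h6
      simp only [ev_cons, ev_nil, mul_one, lv0, lv1, lv2, lv3, lv4, lv5]; exact h6
    · simp only [pow_succ, pow_zero, one_mul, mul_assoc] at h7
      simp only [ev_cons, ev_nil, mul_one, lv0, lv1, lv2, lv3, lv4, lv5]; exact h7
    · simp only [pow_succ, pow_zero, one_mul, mul_assoc] at h8
      simp only [ev_cons, ev_nil, mul_one, lv0, lv1, lv2, lv3, lv4, lv5]; exact h8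
  obtain ⟨g, hg, h⟩ := ok_sound (gen := gen3 x y z) (tw := twB134) (goals := goalsB134)
    (gen3_cube h0 h1 h2) H htw okB134_1 hrl
  · simp only [goalsB134, List.mem_cons, List.not_mem_nil, or_false] at hg
    rcases hg with rfl | rfl | rfl | rfl | rfl
    · simp only [ev_cons, ev_nil, mul_one, ← mul_assoc, lv0, lv1, lv2, lv3, lv4, lv5] at h
      simp only [h, true_or, or_true]
    · simp only [ev_cons, ev_nil, mul_one, ← mul_assoc, lv0, lv1, lv2, lv3, lv4, lv5] at h
      simp only [h, true_or, or_true]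
    · simp only [ev_cons, ev_nil, mul_one, ← mul_assoc, lv0, lv1, lv2, lv3, lv4, lv5] at h
      simp only [h, true_or, or_true]
    · simp only [ev_cons, ev_nil, mul_one, ← mul_assoc, lv0, lv1, lv2, lv3, lv4, lv5] at h
      simp only [h, true_or, or_true]
    · simp only [ev_cons, ev_nil, mul_one, ← mul_assoc, lv0, lv1, lv2, lv3, lv4, lv5] at h
      simp only [h, true_or, or_true]

theorem claimB143 (H : HT G) (x y z : G) (h0 : x ^ 3 = 1) (h1 : y ^ 3 = 1) (h2 : z ^ 3 = 1) (h3 : (x⁻¹ * y) ^ 4 = 1) (h4 : (x * y) ^ 3 = 1) (h5 : (x * z) ^ 3 = 1) (h6 : (x * z⁻¹) ^ 3 = 1) (h7 : (y * z) ^ 4 = 1) (h8 : (y * z⁻¹) ^ 3 = 1) :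
    x⁻¹ * y = 1 ∨ x = 1 ∨ z = 1 ∨ x * z = 1 ∨ x⁻¹ * z = 1 := by
  have htw : ∀ w ∈ twB143, ev (gen3 x y z) w ^ 3 = 1 := by
    intro w hw
    simp only [twB143, List.mem_cons, List.not_mem_nil, or_false] at hw
    rcases hw with rfl | rfl | rfl | rfl | rfl | rfl | rfl | rfl | rfl | rfl | rfl | rfl | rfl | rfl
    · simp only [ev_cons, ev_nil, mul_one, lv0, lv1, lv2, lv3, lv4, lv5]; exact h0
    · simp only [ev_cons, ev_nil, mul_one, lv0, lv1, lv2, lv3, lv4, lv5]; exact h1
    · simp only [ev_cons, ev_nil, mul_one, lv0, lv1, lv2, lv3, lv4, lv5]; exact h2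
    · simp only [ev_cons, ev_nil, mul_one, lv0, lv1, lv2, lv3, lv4, lv5]; exact h4
    · simp only [ev_cons, ev_nil, mul_one, lv0, lv1, lv2, lv3, lv4, lv5]; exact h5
    · simp only [ev_cons, ev_nil, mul_one, lv0, lv1, lv2, lv3, lv4, lv5]; exact h6
    · simp only [ev_cons, ev_nil, mul_one, lv0, lv1, lv2, lv3, lv4, lv5]; exact h8
    · have e : ev (gen3 x y z) [1] = (x)⁻¹ := by
        simp only [ev_cons, ev_nil, mul_one, lv0, lv1, lv2, lv3, lv4, lv5]; try group
      rw [e]; exact pow_inv_one h0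
    · have e : ev (gen3 x y z) [3] = (y)⁻¹ := by
        simp only [ev_cons, ev_nil, mul_one, lv0, lv1, lv2, lv3, lv4, lv5]; try group
      rw [e]; exact pow_inv_one h1
    · have e : ev (gen3 x y z) [5] = (z)⁻¹ := by
        simp only [ev_cons, ev_nil, mul_one, lv0, lv1, lv2, lv3, lv4, lv5]; try group
      rw [e]; exact pow_inv_one h2
    · have e : ev (gen3 x y z) [3, 1] = (x * y)⁻¹ := by
        simp only [ev_cons, ev_nil, mul_one, lv0, lv1, lv2, lv3, lv4, lv5]; try group
      rw [e]; exact pow_inv_one h4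
    · have e : ev (gen3 x y z) [5, 1] = (x * z)⁻¹ := by
        simp only [ev_cons, ev_nil, mul_one, lv0, lv1, lv2, lv3, lv4, lv5]; try group
      rw [e]; exact pow_inv_one h5
    · have e : ev (gen3 x y z) [4, 1] = (x * z⁻¹)⁻¹ := by
        simp only [ev_cons, ev_nil, mul_one, lv0, lv1, lv2, lv3, lv4, lv5]; try group
      rw [e]; exact pow_inv_one h6
    · have e : ev (gen3 x y z) [4, 3] = (y * z⁻¹)⁻¹ := by
        simp only [ev_cons, ev_nil, mul_one, lv0, lv1, lv2, lv3, lv4, lv5]; try group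
      rw [e]; exact pow_inv_one h8
  have hrl : ∀ r ∈ relsB143, ev (gen3 x y z) r = 1 := by
    intro r hr
    simp only [relsB143, List.mem_cons, List.not_mem_nil, or_false] at hr
    rcases hr with rfl | rfl | rfl | rfl | rfl | rfl | rfl | rfl | rfl
    · simp only [pow_succ, pow_zero, one_mul, mul_assoc] at h0
      simp only [ev_cons, ev_nil, mul_one, lv0, lv1, lv2, lv3, lv4, lv5]; exact h0
    · simp only [pow_succ, pow_zero, one_mul, mul_assoc] at h1
      simp only [ev_cons, ev_nil, mul_one, lv0, lv1, lv2, lv3, lv4, lv5]; exact h1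
    · simp only [pow_succ, pow_zero, one_mul, mul_assoc] at h2
      simp only [ev_cons, ev_nil, mul_one, lv0, lv1, lv2, lv3, lv4, lv5]; exact h2
    · simp only [pow_succ, pow_zero, one_mul, mul_assoc] at h3
      simp only [ev_cons, ev_nil, mul_one, lv0, lv1, lv2, lv3, lv4, lv5]; exact h3
    · simp only [pow_succ, pow_zero, one_mul, mul_assoc] at h4
      simp only [ev_cons, ev_nil, mul_one, lv0, lv1, lv2, lv3, lv4, lv5]; exact h4
    · simp only [pow_succ, pow_zero, one_mul, mul_assoc] at h5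
      simp only [ev_cons, ev_nil, mul_one, lv0, lv1, lv2, lv3, lv4, lv5]; exact h5
    · simp only [pow_succ, pow_zero, one_mul, mul_assoc] at h6
      simp only [ev_cons, ev_nil, mul_one, lv0, lv1, lv2, lv3, lv4, lv5]; exact h6
    · simp only [pow_succ, pow_zero, one_mul, mul_assoc] at h7
      simp only [ev_cons, ev_nil, mul_one, lv0, lv1, lv2, lv3, lv4, lv5]; exact h7
    · simp only [pow_succ, pow_zero, one_mul, mul_assoc] at h8
      simp only [ev_cons, ev_nil, mul_one, lv0, lv1, lv2, lv3, lv4, lv5]; exact h8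
  obtain ⟨g, hg, h⟩ := ok_sound (gen := gen3 x y z) (tw := twB143) (goals := goalsB143)
    (gen3_cube h0 h1 h2) H htw okB143_1 hrl
  · simp only [goalsB143, List.mem_cons, List.not_mem_nil, or_false] at hg
    rcases hg with rfl | rfl | rfl | rfl | rfl
    · simp only [ev_cons, ev_nil, mul_one, ← mul_assoc, lv0, lv1, lv2, lv3, lv4, lv5] at h
      simp only [h, true_or, or_true]
    · simp only [ev_cons, ev_nil, mul_one, ← mul_assoc, lv0, lv1, lv2, lv3, lv4, lv5] at h
      simp only [h, true_or, or_true]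
    · simp only [ev_cons, ev_nil, mul_one, ← mul_assoc, lv0, lv1, lv2, lv3, lv4, lv5] at h
      simp only [h, true_or, or_true]
    · simp only [ev_cons, ev_nil, mul_one, ← mul_assoc, lv0, lv1, lv2, lv3, lv4, lv5] at h
      simp only [h, true_or, or_true]
    · simp only [ev_cons, ev_nil, mul_one, ← mul_assoc, lv0, lv1, lv2, lv3, lv4, lv5] at h
      simp only [h, true_or, or_true]

theorem claimB233 (H : HT G) (x y z : G) (h0 : x ^ 3 = 1) (h1 : y ^ 3 = 1) (h2 : z ^ 3 = 1) (h3 : (x⁻¹ * y) ^ 4 = 1) (h4 : (x * y) ^ 3 = 1) (h5 : (y⁻¹ * z) ^ 4 = 1) (h6 : (y * z) ^ 3 = 1) (h7 : (x * z) ^ 3 = 1) (h8 : (x⁻¹ * z) ^ 3 = 1) :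
    x⁻¹ * y = 1 ∨ y⁻¹ * z = 1 ∨ x = 1 ∨ x⁻¹ * z = 1 := by
  have htw : ∀ w ∈ twB233, ev (gen3 x y z) w ^ 3 = 1 := by
    intro w hw
    simp only [twB233, List.mem_cons, List.not_mem_nil, or_false] at hw
    rcases hw with rfl | rfl | rfl | rfl | rfl | rfl | rfl | rfl | rfl | rfl | rfl | rfl | rfl | rfl
    · simp only [ev_cons, ev_nil, mul_one, lv0, lv1, lv2, lv3, lv4, lv5]; exact h0
    · simp only [ev_cons, ev_nil, mul_one, lv0, lv1, lv2, lv3, lv4, lv5]; exact h1
    · simp only [ev_cons, ev_nil, mul_one, lv0, lv1, lv2, lv3, lv4, lv5]; exact h2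
    · simp only [ev_cons, ev_nil, mul_one, lv0, lv1, lv2, lv3, lv4, lv5]; exact h4
    · simp only [ev_cons, ev_nil, mul_one, lv0, lv1, lv2, lv3, lv4, lv5]; exact h6
    · simp only [ev_cons, ev_nil, mul_one, lv0, lv1, lv2, lv3, lv4, lv5]; exact h7
    · simp only [ev_cons, ev_nil, mul_one, lv0, lv1, lv2, lv3, lv4, lv5]; exact h8
    · have e : ev (gen3 x y z) [1] = (x)⁻¹ := by
        simp only [ev_cons, ev_nil, mul_one, lv0, lv1, lv2, lv3, lv4, lv5]; try group
      rw [e]; exact pow_inv_one h0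
    · have e : ev (gen3 x y z) [3] = (y)⁻¹ := by
        simp only [ev_cons, ev_nil, mul_one, lv0, lv1, lv2, lv3, lv4, lv5]; try group
      rw [e]; exact pow_inv_one h1
    · have e : ev (gen3 x y z) [5] = (z)⁻¹ := by
        simp only [ev_cons, ev_nil, mul_one, lv0, lv1, lv2, lv3, lv4, lv5]; try group
      rw [e]; exact pow_inv_one h2
    · have e : ev (gen3 x y z) [3, 1] = (x * y)⁻¹ := by
        simp only [ev_cons, ev_nil, mul_one, lv0, lv1, lv2, lv3, lv4, lv5]; try group
      rw [e]; exact pow_inv_one h4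
    · have e : ev (gen3 x y z) [5, 3] = (y * z)⁻¹ := by
        simp only [ev_cons, ev_nil, mul_one, lv0, lv1, lv2, lv3, lv4, lv5]; try group
      rw [e]; exact pow_inv_one h6
    · have e : ev (gen3 x y z) [5, 1] = (x * z)⁻¹ := by
        simp only [ev_cons, ev_nil, mul_one, lv0, lv1, lv2, lv3, lv4, lv5]; try group
      rw [e]; exact pow_inv_one h7
    · have e : ev (gen3 x y z) [5, 0] = (x⁻¹ * z)⁻¹ := by
        simp only [ev_cons, ev_nil, mul_one, lv0, lv1, lv2, lv3, lv4, lv5]; try group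
      rw [e]; exact pow_inv_one h8
  have hrl : ∀ r ∈ relsB233, ev (gen3 x y z) r = 1 := by
    intro r hr
    simp only [relsB233, List.mem_cons, List.not_mem_nil, or_false] at hr
    rcases hr with rfl | rfl | rfl | rfl | rfl | rfl | rfl | rfl | rfl
    · simp only [pow_succ, pow_zero, one_mul, mul_assoc] at h0
      simp only [ev_cons, ev_nil, mul_one, lv0, lv1, lv2, lv3, lv4, lv5]; exact h0
    · simp only [pow_succ, pow_zero, one_mul, mul_assoc] at h1
      simp only [ev_cons, ev_nil, mul_one, lv0, lv1, lv2, lv3, lv4, lv5]; exact h1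
    · simp only [pow_succ, pow_zero, one_mul, mul_assoc] at h2
      simp only [ev_cons, ev_nil, mul_one, lv0, lv1, lv2, lv3, lv4, lv5]; exact h2
    · simp only [pow_succ, pow_zero, one_mul, mul_assoc] at h3
      simp only [ev_cons, ev_nil, mul_one, lv0, lv1, lv2, lv3, lv4, lv5]; exact h3
    · simp only [pow_succ, pow_zero, one_mul, mul_assoc] at h4
      simp only [ev_cons, ev_nil, mul_one, lv0, lv1, lv2, lv3, lv4, lv5]; exact h4
    · simp only [pow_succ, pow_zero, one_mul, mul_assoc] at h5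
      simp only [ev_cons, ev_nil, mul_one, lv0, lv1, lv2, lv3, lv4, lv5]; exact h5
    · simp only [pow_succ, pow_zero, one_mul, mul_assoc] at h6
      simp only [ev_cons, ev_nil, mul_one, lv0, lv1, lv2, lv3, lv4, lv5]; exact h6
    · simp only [pow_succ, pow_zero, one_mul, mul_assoc] at h7
      simp only [ev_cons, ev_nil, mul_one, lv0, lv1, lv2, lv3, lv4, lv5]; exact h7
    · simp only [pow_succ, pow_zero, one_mul, mul_assoc] at h8
      simp only [ev_cons, ev_nil, mul_one, lv0, lv1, lv2, lv3, lv4, lv5]; exact h8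
  obtain ⟨g, hg, h⟩ := ok_sound (gen := gen3 x y z) (tw := twB233) (goals := goalsB233)
    (gen3_cube h0 h1 h2) H htw okB233_1 hrl
  · simp only [goalsB233, List.mem_cons, List.not_mem_nil, or_false] at hg
    rcases hg with rfl | rfl | rfl | rfl
    · simp only [ev_cons, ev_nil, mul_one, ← mul_assoc, lv0, lv1, lv2, lv3, lv4, lv5] at h
      simp only [h, true_or, or_true]
    · simp only [ev_cons, ev_nil, mul_one, ← mul_assoc, lv0, lv1, lv2, lv3, lv4, lv5] at h
      simp only [h, true_or, or_true]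
    · simp only [ev_cons, ev_nil, mul_one, ← mul_assoc, lv0, lv1, lv2, lv3, lv4, lv5] at h
      simp only [h, true_or, or_true]
    · simp only [ev_cons, ev_nil, mul_one, ← mul_assoc, lv0, lv1, lv2, lv3, lv4, lv5] at h
      simp only [h, true_or, or_true]

theorem claimB243 (H : HT G) (x y z : G) (h0 : x ^ 3 = 1) (h1 : y ^ 3 = 1) (h2 : z ^ 3 = 1) (h3 : (x⁻¹ * y) ^ 4 = 1) (h4 : (x * y) ^ 3 = 1) (h5 : (y⁻¹ * z) ^ 4 = 1) (h6 : (y * z) ^ 3 = 1) (h7 : (x * z) ^ 4 = 1) (h8 : (x⁻¹ * z) ^ 3 = 1) :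
    x⁻¹ * y = 1 ∨ y⁻¹ * z = 1 ∨ x = 1 ∨ x * z = 1 := by
  have htw : ∀ w ∈ twB243, ev (gen3 x y z) w ^ 3 = 1 := by
    intro w hw
    simp only [twB243, List.mem_cons, List.not_mem_nil, or_false] at hw
    rcases hw with rfl | rfl | rfl | rfl | rfl | rfl | rfl | rfl | rfl | rfl | rfl | rfl
    · simp only [ev_cons, ev_nil, mul_one, lv0, lv1, lv2, lv3, lv4, lv5]; exact h0
    · simp only [ev_cons, ev_nil, mul_one, lv0, lv1, lv2, lv3, lv4, lv5]; exact h1
    · simp only [ev_cons, ev_nil, mul_one, lv0, lv1, lv2, lv3, lv4, lv5]; exact h2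
    · simp only [ev_cons, ev_nil, mul_one, lv0, lv1, lv2, lv3, lv4, lv5]; exact h4
    · simp only [ev_cons, ev_nil, mul_one, lv0, lv1, lv2, lv3, lv4, lv5]; exact h6
    · simp only [ev_cons, ev_nil, mul_one, lv0, lv1, lv2, lv3, lv4, lv5]; exact h8
    · have e : ev (gen3 x y z) [1] = (x)⁻¹ := by
        simp only [ev_cons, ev_nil, mul_one, lv0, lv1, lv2, lv3, lv4, lv5]; try group
      rw [e]; exact pow_inv_one h0
    · have e : ev (gen3 x y z) [3] = (y)⁻¹ := by
        simp only [ev_cons, ev_nil, mul_one, lv0, lv1, lv2, lv3, lv4, lv5]; try group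
      rw [e]; exact pow_inv_one h1
    · have e : ev (gen3 x y z) [5] = (z)⁻¹ := by
        simp only [ev_cons, ev_nil, mul_one, lv0, lv1, lv2, lv3, lv4, lv5]; try group
      rw [e]; exact pow_inv_one h2
    · have e : ev (gen3 x y z) [3, 1] = (x * y)⁻¹ := by
        simp only [ev_cons, ev_nil, mul_one, lv0, lv1, lv2, lv3, lv4, lv5]; try group
      rw [e]; exact pow_inv_one h4
    · have e : ev (gen3 x y z) [5, 3] = (y * z)⁻¹ := by
        simp only [ev_cons, ev_nil, mul_one, lv0, lv1, lv2, lv3, lv4, lv5]; try group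
      rw [e]; exact pow_inv_one h6
    · have e : ev (gen3 x y z) [5, 0] = (x⁻¹ * z)⁻¹ := by
        simp only [ev_cons, ev_nil, mul_one, lv0, lv1, lv2, lv3, lv4, lv5]; try group
      rw [e]; exact pow_inv_one h8
  have hrl : ∀ r ∈ relsB243, ev (gen3 x y z) r = 1 := by
    intro r hr
    simp only [relsB243, List.mem_cons, List.not_mem_nil, or_false] at hr
    rcases hr with rfl | rfl | rfl | rfl | rfl | rfl | rfl | rfl | rfl
    · simp only [pow_succ, pow_zero, one_mul, mul_assoc] at h0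
      simp only [ev_cons, ev_nil, mul_one, lv0, lv1, lv2, lv3, lv4, lv5]; exact h0
    · simp only [pow_succ, pow_zero, one_mul, mul_assoc] at h1
      simp only [ev_cons, ev_nil, mul_one, lv0, lv1, lv2, lv3, lv4, lv5]; exact h1
    · simp only [pow_succ, pow_zero, one_mul, mul_assoc] at h2
      simp only [ev_cons, ev_nil, mul_one, lv0, lv1, lv2, lv3, lv4, lv5]; exact h2
    · simp only [pow_succ, pow_zero, one_mul, mul_assoc] at h3
      simp only [ev_cons, ev_nil, mul_one, lv0, lv1, lv2, lv3, lv4, lv5]; exact h3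
    · simp only [pow_succ, pow_zero, one_mul, mul_assoc] at h4
      simp only [ev_cons, ev_nil, mul_one, lv0, lv1, lv2, lv3, lv4, lv5]; exact h4
    · simp only [pow_succ, pow_zero, one_mul, mul_assoc] at h5
      simp only [ev_cons, ev_nil, mul_one, lv0, lv1, lv2, lv3, lv4, lv5]; exact h5
    · simp only [pow_succ, pow_zero, one_mul, mul_assoc] at h6
      simp only [ev_cons, ev_nil, mul_one, lv0, lv1, lv2, lv3, lv4, lv5]; exact h6
    · simp only [pow_succ, pow_zero, one_mul, mul_assoc] at h7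
      simp only [ev_cons, ev_nil, mul_one, lv0, lv1, lv2, lv3, lv4, lv5]; exact h7
    · simp only [pow_succ, pow_zero, one_mul, mul_assoc] at h8
      simp only [ev_cons, ev_nil, mul_one, lv0, lv1, lv2, lv3, lv4, lv5]; exact h8
  obtain ⟨g, hg, h⟩ := ok_sound (gen := gen3 x y z) (tw := twB243) (goals := goalsB243)
    (gen3_cube h0 h1 h2) H htw okB243_1 hrl
  · simp only [goalsB243, List.mem_cons, List.not_mem_nil, or_false] at hg
    rcases hg with rfl | rfl | rfl | rfl
    · simp only [ev_cons, ev_nil, mul_one, ← mul_assoc, lv0, lv1, lv2, lv3, lv4, lv5] at h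
      simp only [h, true_or, or_true]
    · simp only [ev_cons, ev_nil, mul_one, ← mul_assoc, lv0, lv1, lv2, lv3, lv4, lv5] at h
      simp only [h, true_or, or_true]
    · simp only [ev_cons, ev_nil, mul_one, ← mul_assoc, lv0, lv1, lv2, lv3, lv4, lv5] at h
      simp only [h, true_or, or_true]
    · simp only [ev_cons, ev_nil, mul_one, ← mul_assoc, lv0, lv1, lv2, lv3, lv4, lv5] at h
      simp only [h, true_or, or_true]

theorem claimC (H : HT G) (x y z : G) (h0 : x ^ 3 = 1) (h1 : y ^ 3 = 1) (h2 : z ^ 3 = 1) (h3 : (x⁻¹ * y) ^ 4 = 1) (h4 : (x * y) ^ 3 = 1) (h5 : (y⁻¹ * z) ^ 4 = 1) (h6 : (y * z) ^ 3 = 1) (h7 : (x * z) ^ 3 = 1) (h8 : (x⁻¹ * z) ^ 4 = 1) (h9 : (x * y⁻¹ * z) ^ 4 = 1) :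
    x * y⁻¹ * z = 1 ∨ x = 1 := by
  have htw : ∀ w ∈ twC, ev (gen3 x y z) w ^ 3 = 1 := by
    intro w hw
    simp only [twC, List.mem_cons, List.not_mem_nil, or_false] at hw
    rcases hw with rfl | rfl | rfl | rfl | rfl | rfl | rfl | rfl | rfl | rfl | rfl | rfl
    · simp only [ev_cons, ev_nil, mul_one, lv0, lv1, lv2, lv3, lv4, lv5]; exact h0
    · simp only [ev_cons, ev_nil, mul_one, lv0, lv1, lv2, lv3, lv4, lv5]; exact h1
    · simp only [ev_cons, ev_nil, mul_one, lv0, lv1, lv2, lv3, lv4, lv5]; exact h2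
    · simp only [ev_cons, ev_nil, mul_one, lv0, lv1, lv2, lv3, lv4, lv5]; exact h4
    · simp only [ev_cons, ev_nil, mul_one, lv0, lv1, lv2, lv3, lv4, lv5]; exact h6
    · simp only [ev_cons, ev_nil, mul_one, lv0, lv1, lv2, lv3, lv4, lv5]; exact h7
    · have e : ev (gen3 x y z) [1] = (x)⁻¹ := by
        simp only [ev_cons, ev_nil, mul_one, lv0, lv1, lv2, lv3, lv4, lv5]; try group
      rw [e]; exact pow_inv_one h0
    · have e : ev (gen3 x y z) [3] = (y)⁻¹ := by
        simp only [ev_cons, ev_nil, mul_one, lv0, lv1, lv2, lv3, lv4, lv5]; try group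
      rw [e]; exact pow_inv_one h1
    · have e : ev (gen3 x y z) [5] = (z)⁻¹ := by
        simp only [ev_cons, ev_nil, mul_one, lv0, lv1, lv2, lv3, lv4, lv5]; try group
      rw [e]; exact pow_inv_one h2
    · have e : ev (gen3 x y z) [3, 1] = (x * y)⁻¹ := by
        simp only [ev_cons, ev_nil, mul_one, lv0, lv1, lv2, lv3, lv4, lv5]; try group
      rw [e]; exact pow_inv_one h4
    · have e : ev (gen3 x y z) [5, 3] = (y * z)⁻¹ := by
        simp only [ev_cons, ev_nil, mul_one, lv0, lv1, lv2, lv3, lv4, lv5]; try group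
      rw [e]; exact pow_inv_one h6
    · have e : ev (gen3 x y z) [5, 1] = (x * z)⁻¹ := by
        simp only [ev_cons, ev_nil, mul_one, lv0, lv1, lv2, lv3, lv4, lv5]; try group
      rw [e]; exact pow_inv_one h7
  have hrl : ∀ r ∈ relsC, ev (gen3 x y z) r = 1 := by
    intro r hr
    simp only [relsC, List.mem_cons, List.not_mem_nil, or_false] at hr
    rcases hr with rfl | rfl | rfl | rfl | rfl | rfl | rfl | rfl | rfl | rfl
    · simp only [pow_succ, pow_zero, one_mul, mul_assoc] at h0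
      simp only [ev_cons, ev_nil, mul_one, lv0, lv1, lv2, lv3, lv4, lv5]; exact h0
    · simp only [pow_succ, pow_zero, one_mul, mul_assoc] at h1
      simp only [ev_cons, ev_nil, mul_one, lv0, lv1, lv2, lv3, lv4, lv5]; exact h1
    · simp only [pow_succ, pow_zero, one_mul, mul_assoc] at h2
      simp only [ev_cons, ev_nil, mul_one, lv0, lv1, lv2, lv3, lv4, lv5]; exact h2
    · simp only [pow_succ, pow_zero, one_mul, mul_assoc] at h3
      simp only [ev_cons, ev_nil, mul_one, lv0, lv1, lv2, lv3, lv4, lv5]; exact h3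
    · simp only [pow_succ, pow_zero, one_mul, mul_assoc] at h4
      simp only [ev_cons, ev_nil, mul_one, lv0, lv1, lv2, lv3, lv4, lv5]; exact h4
    · simp only [pow_succ, pow_zero, one_mul, mul_assoc] at h5
      simp only [ev_cons, ev_nil, mul_one, lv0, lv1, lv2, lv3, lv4, lv5]; exact h5
    · simp only [pow_succ, pow_zero, one_mul, mul_assoc] at h6
      simp only [ev_cons, ev_nil, mul_one, lv0, lv1, lv2, lv3, lv4, lv5]; exact h6
    · simp only [pow_succ, pow_zero, one_mul, mul_assoc] at h7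
      simp only [ev_cons, ev_nil, mul_one, lv0, lv1, lv2, lv3, lv4, lv5]; exact h7
    · simp only [pow_succ, pow_zero, one_mul, mul_assoc] at h8
      simp only [ev_cons, ev_nil, mul_one, lv0, lv1, lv2, lv3, lv4, lv5]; exact h8
    · simp only [pow_succ, pow_zero, one_mul, mul_assoc] at h9
      simp only [ev_cons, ev_nil, mul_one, lv0, lv1, lv2, lv3, lv4, lv5]; exact h9
  obtain ⟨g, hg, h⟩ := ok_sound (gen := gen3 x y z) (tw := twC) (goals := goalsC)
    (gen3_cube h0 h1 h2) H htw okC_1 hrl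
  · simp only [goalsC, List.mem_cons, List.not_mem_nil, or_false] at hg
    rcases hg with rfl | rfl
    · simp only [ev_cons, ev_nil, mul_one, ← mul_assoc, lv0, lv1, lv2, lv3, lv4, lv5] at h
      simp only [h, true_or, or_true]
    · simp only [ev_cons, ev_nil, mul_one, ← mul_assoc, lv0, lv1, lv2, lv3, lv4, lv5] at h
      simp only [h, true_or, or_true]

theorem claims (H : HT G) : Claims G where
  A := fun x y h0 h1 h2 h3 => claimA H x y h0 h1 h2 h3
  B133 := claimB133 H
  B134 := claimB134 H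
  B143 := claimB143 H
  B233 := claimB233 H
  B243 := claimB243 H
  C := claimC H

end H15.Struct
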