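import Pool.Agent.H15R2.Burn

/-!
The structure of groups in which the product of two elements of order 3 has order dividing
3 or 4, from seven presentation facts (`Claims`).
-/

universe u

namespace H15.Struct

/-- the product of two elements with trivial cube has trivial cube or trivial fourth power -/
def HT (G : Type u) [Group G] : Prop :=
  ∀ a b : G, a ^ 3 = 1 → b ^ 3 = 1 → (a * b) ^ 3 = 1 ∨ (a * b) ^ 4 = 1

/-- the facts proved by coset enumeration -/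
structure Claims (G : Type u) [Group G] : Prop where
  A : ∀ x y : G, x ^ 3 = 1 → y ^ 3 = 1 → (x * y) ^ 4 = 1 → (x * y⁻¹) ^ 4 = 1 → x = 1
  B133 : ∀ x y z : G, x ^ 3 = 1 → y ^ 3 = 1 → z ^ 3 = 1 → (x⁻¹ * y) ^ 4 = 1 → (x * y) ^ 3 = 1 →
    (x * z) ^ 3 = 1 → (x * z⁻¹) ^ 3 = 1 → (y * z) ^ 3 = 1 → (y * z⁻¹) ^ 3 = 1 →
    x⁻¹ * y = 1 ∨ x = 1 ∨ z = 1 ∨ x * z = 1 ∨ x⁻¹ * z = 1
  B134 : ∀ x y z : G, x ^ 3 = 1 → y ^ 3 = 1 → z ^ 3 = 1 → (x⁻¹ * y) ^ 4 = 1 → (x * y) ^ 3 = 1 →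
    (x * z) ^ 3 = 1 → (x * z⁻¹) ^ 3 = 1 → (y * z) ^ 3 = 1 → (y * z⁻¹) ^ 4 = 1 →
    x⁻¹ * y = 1 ∨ x = 1 ∨ z = 1 ∨ x * z = 1 ∨ x⁻¹ * z = 1
  B143 : ∀ x y z : G, x ^ 3 = 1 → y ^ 3 = 1 → z ^ 3 = 1 → (x⁻¹ * y) ^ 4 = 1 → (x * y) ^ 3 = 1 →
    (x * z) ^ 3 = 1 → (x * z⁻¹) ^ 3 = 1 → (y * z) ^ 4 = 1 → (y * z⁻¹) ^ 3 = 1 →
    x⁻¹ * y = 1 ∨ x = 1 ∨ z = 1 ∨ x * z = 1 ∨ x⁻¹ * z = 1
  B233 : ∀ x y z : G, x ^ 3 = 1 → y ^ 3 = 1 → z ^ 3 = 1 → (x⁻¹ * y) ^ 4 = 1 → (x * y) ^ 3 = 1 →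
    (y⁻¹ * z) ^ 4 = 1 → (y * z) ^ 3 = 1 → (x * z) ^ 3 = 1 → (x⁻¹ * z) ^ 3 = 1 →
    x⁻¹ * y = 1 ∨ y⁻¹ * z = 1 ∨ x = 1 ∨ x⁻¹ * z = 1
  B243 : ∀ x y z : G, x ^ 3 = 1 → y ^ 3 = 1 → z ^ 3 = 1 → (x⁻¹ * y) ^ 4 = 1 → (x * y) ^ 3 = 1 →
    (y⁻¹ * z) ^ 4 = 1 → (y * z) ^ 3 = 1 → (x * z) ^ 4 = 1 → (x⁻¹ * z) ^ 3 = 1 →
    x⁻¹ * y = 1 ∨ y⁻¹ * z = 1 ∨ x = 1 ∨ x * z = 1
  C : ∀ x y z : G, x ^ 3 = 1 → y ^ 3 = 1 → z ^ 3 = 1 → (x⁻¹ * y) ^ 4 = 1 → (x * y) ^ 3 = 1 →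
    (y⁻¹ * z) ^ 4 = 1 → (y * z) ^ 3 = 1 → (x * z) ^ 3 = 1 → (x⁻¹ * z) ^ 4 = 1 →
    (x * y⁻¹ * z) ^ 4 = 1 → x * y⁻¹ * z = 1 ∨ x = 1

variable {G : Type u} [Group G]

theorem pow_comm_one {a b : G} {n : ℕ} (h : (a * b) ^ n = 1) : (b * a) ^ n = 1 := by
  have h1 : b * a = a⁻¹ * (a * b) * a⁻¹⁻¹ := by group
  rw [h1, conj_pow, h]; simp

theorem pow_inv_one {a : G} {n : ℕ} (h : a ^ n = 1) : (a⁻¹) ^ n = 1 := by
  rw [inv_pow, h, inv_one]

theorem one_of_34 {a : G} (h3 : a ^ 3 = 1) (h4 : a ^ 4 = 1) : a = 1 := by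
  rw [pow_succ, h3, one_mul] at h4; exact h4

/-- near -/
def near (x y : G) : Prop := (x⁻¹ * y) ^ 4 = 1

theorem near.symm {x y : G} (h : near x y) : near y x := by
  have := pow_inv_one h
  unfold near; rw [← this]; congr 1; group

theorem near.self (x : G) : near x x := by unfold near; simp

section

variable (H : HT G) (K : Claims G)

include H K

theorem cubeA {a b : G} (ha : a ^ 3 = 1) (hb : b ^ 3 = 1) :
    (a * b) ^ 3 = 1 ∨ (a⁻¹ * b) ^ 3 = 1 := by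
  rcases H a b ha hb with h | h
  · exact Or.inl h
  rcases H a⁻¹ b (pow_inv_one ha) hb with h' | h'
  · exact Or.inr h'
  have := K.A b a hb ha (pow_comm_one h) (pow_comm_one h')
  left; rw [this, mul_one]; exact ha

theorem near_mul {x y : G} (hx : x ^ 3 = 1) (hy : y ^ 3 = 1) (h : near x y) :
    (x * y) ^ 3 = 1 := by
  rcases cubeA H K hx hy with h' | h'
  · exact h'
  · have h1 : x⁻¹ * y = 1 := one_of_34 h' h
    have h2 : y = x := by rw [inv_mul_eq_one] at h1; exact h1.symm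
    rw [h2, ← pow_two, ← pow_mul, mul_comm 2 3, pow_mul, hx, one_pow]

theorem near_trans {x y z : G} (hx : x ^ 3 = 1) (hy : y ^ 3 = 1) (hz : z ^ 3 = 1) (hx1 : x ≠ 1)
    (hxy : near x y) (hyz : near y z) : near x z := by
  rcases H x⁻¹ z (pow_inv_one hx) hz with h3 | h4
  swap
  · exact h4
  have mxy := near_mul H K hx hy hxy
  have myz := near_mul H K hy hz hyz
  rcases H x z hx hz with h | h
  · rcases K.B233 x y z hx hy hz hxy mxy hyz myz h h3 with h1 | h1 | h1 | h1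
    · rw [inv_mul_eq_one] at h1; rw [h1]; exact hyz
    · rw [inv_mul_eq_one] at h1; rw [← h1]; exact hxy
    · exact absurd h1 hx1
    · rw [inv_mul_eq_one] at h1; rw [h1]; exact near.self z
  · rcases K.B243 x y z hx hy hz hxy mxy hyz myz h h3 with h1 | h1 | h1 | h1
    · rw [inv_mul_eq_one] at h1; rw [h1]; exact hyz
    · rw [inv_mul_eq_one] at h1; rw [← h1]; exact hxy
    · exact absurd h1 hx1
    · have hz' : z = x⁻¹ := by rw [mul_eq_one_iff_inv_eq] at h1; exact h1.symm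
      have h4 : (x * y) ^ 4 = 1 := by
        have h5 : (y⁻¹ * x⁻¹) ^ 4 = 1 := by rw [← hz']; exact hyz
        have h6 := pow_inv_one h5
        rw [← h6]; congr 1; group
      have h5 : x * y = 1 := one_of_34 mxy h4
      have h6 : y = x⁻¹ := by rw [mul_eq_one_iff_inv_eq] at h5; exact h5.symm
      rw [hz', ← h6]; exact hxy

theorem prodC {x y z : G} (hx : x ^ 3 = 1) (hy : y ^ 3 = 1) (hz : z ^ 3 = 1) (hx1 : x ≠ 1)
    (hxy : near x y) (hyz : near y z) (hxz : near x z) : (x * y⁻¹ * z) ^ 3 = 1 := by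
  have mxy := near_mul H K hx hy hxy
  have myz := near_mul H K hy hz hyz
  have mxz := near_mul H K hx hz hxz
  have mzx := pow_comm_one mxz
  have key : ∀ n : ℕ, (y⁻¹ * (z * x)) ^ n = 1 → (x * y⁻¹ * z) ^ n = 1 := by
    intro n hn
    have h1 : x * y⁻¹ * z = x * (y⁻¹ * (z * x)) * x⁻¹ := by group
    rw [h1, conj_pow, hn]; simp
  rcases H y⁻¹ (z * x) (pow_inv_one hy) mzx with h | h
  · exact key 3 h
  · rcases K.C x y z hx hy hz hxy mxy hyz myz mxz hxz (key 4 h) with h1 | h1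
    · rw [h1, one_pow]
    · exact absurd h1 hx1

/-- the subgroup `S` -/
def S (x : G) (hx : x ^ 3 = 1) (hx1 : x ≠ 1) : Subgroup G :=
  have key : ∀ s r : G, s ^ 4 = 1 → (x * s) ^ 3 = 1 → r ^ 4 = 1 → (x * r) ^ 3 = 1 →
      (s⁻¹ * r) ^ 4 = 1 ∧ (x * (s⁻¹ * r)) ^ 3 = 1 := by
    intro s r hs hxs hr hxr
    have n1 : near x (x * s) := by unfold near; rw [inv_mul_cancel_left]; exact hs
    have n2 : near x (x * r) := by unfold near; rw [inv_mul_cancel_left]; exact hr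
    have hne : x * s ≠ 1 := by
      intro h
      have h1 : s = x⁻¹ := by rw [mul_eq_one_iff_inv_eq] at h; exact h.symm
      have h2 : s = 1 := one_of_34 (by rw [h1]; exact pow_inv_one hx) hs
      rw [h2, mul_one] at h; exact hx1 h
    have n3 : near (x * s) (x * r) := near_trans H K hxs hx hxr hne n1.symm n2
    refine ⟨?_, ?_⟩
    · have : s⁻¹ * r = (x * s)⁻¹ * (x * r) := by group
      rw [this]; exact n3
    · have : x * (s⁻¹ * r) = x * (x * s)⁻¹ * (x * r) := by group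
      rw [this]; exact prodC H K hx hxs hxr hx1 n1 n3 n2
  { carrier := {s | s ^ 4 = 1 ∧ (x * s) ^ 3 = 1}
    one_mem' := by simp [hx]
    mul_mem' := by
      intro a b ha hb
      have h1 := key a 1 ha.1 ha.2 (one_pow 4) (by rw [mul_one]; exact hx)
      rw [mul_one] at h1
      have h2 := key a⁻¹ b h1.1 h1.2 hb.1 hb.2
      rw [inv_inv] at h2
      exact h2
    inv_mem' := by
      intro a ha
      have h1 := key a 1 ha.1 ha.2 (one_pow 4) (by rw [mul_one]; exact hx)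
      rw [mul_one] at h1
      exact h1 }

theorem mem_S {x : G} {hx : x ^ 3 = 1} {hx1 : x ≠ 1} {s : G} :
    s ∈ S H K x hx hx1 ↔ s ^ 4 = 1 ∧ (x * s) ^ 3 = 1 := Iff.rfl

theorem S_conj {x : G} {hx : x ^ 3 = 1} {hx1 : x ≠ 1} {s : G} (hs : s ∈ S H K x hx hx1) :
    x * s * x⁻¹ ∈ S H K x hx hx1 := by
  rw [mem_S] at hs ⊢
  refine ⟨?_, ?_⟩
  · rw [conj_pow, hs.1]; simp
  · have : x * (x * s * x⁻¹) = x * (x * s) * x⁻¹ := by group
    rw [this, conj_pow, hs.2]; simp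

theorem S_conj' {x : G} {hx : x ^ 3 = 1} {hx1 : x ≠ 1} {s : G} (hs : s ∈ S H K x hx hx1) :
    x⁻¹ * s * x ∈ S H K x hx hx1 := by
  rw [mem_S] at hs ⊢
  refine ⟨?_, ?_⟩
  · have : x⁻¹ * s * x = x⁻¹ * s * x⁻¹⁻¹ := by group
    rw [this, conj_pow, hs.1]; simp
  · have : x * (x⁻¹ * s * x) = s * x := by group
    rw [this]; exact pow_comm_one hs.2

/-- `x` normalises `S` -/
theorem x_mem_normalizer {x : G} {hx : x ^ 3 = 1} {hx1 : x ≠ 1} :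
    x ∈ Subgroup.normalizer (S H K x hx hx1 : Set G) := by
  rw [Subgroup.mem_normalizer_iff]
  intro s
  constructor
  · intro hs; exact S_conj H K hs
  · intro hs
    have := S_conj' H K hs
    have e : x⁻¹ * (x * s * x⁻¹) * x = s := by group
    rw [e] at this; exact this

end

end H15.Struct
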