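import Mathlib

/-!
A small verified Todd-Coxeter machine over the trivial subgroup, for kernel reflection.

Letters are natural numbers: `2*i` is the generator `i`, `2*i+1` its inverse (`i ≤ 2`).
The coset table is one binary trie of blocks of 2048 digits (256 cosets) in base `2^16`; the digit number
`8*c+g` is the entry of the coset `c` at the letter `g` (`0` = undefined, `d+1` = the coset `d`),
and the digit `8*c+6` is the parent pointer of `c`.
-/

namespace H15.TC

/-- binary trie keyed by natural numbers, with values in `ℕ` (`0` = nothing) -/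
inductive Tr where
  | nil : Tr
  | node : Tr → ℕ → Tr → Tr

/-- lookup -/
noncomputable def Tr.get (t : Tr) : ℕ → ℕ :=
  Tr.rec (motive := fun _ => ℕ → ℕ) (fun _ => nat_lit 0)
    (fun _ v _ ihl ihr n => Nat.rec (motive := fun _ => ℕ) v
      (fun k _ => Bool.rec (motive := fun _ => ℕ) (ihr (Nat.div k (nat_lit 2)))
        (ihl (Nat.div k (nat_lit 2))) (Nat.beq (Nat.mod k (nat_lit 2)) (nat_lit 0))) n) t

/-- update (with fuel) -/
noncomputable def Tr.set (f : ℕ) : Tr → ℕ → ℕ → Tr :=
  Nat.rec (motive := fun _ => Tr → ℕ → ℕ → Tr) (fun t _ _ => t)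
    (fun _ ih t n v => Tr.rec (motive := fun _ => Tr)
      (Nat.rec (motive := fun _ => Tr) (.node .nil v .nil)
        (fun k _ => Bool.rec (motive := fun _ => Tr)
          (.node .nil (nat_lit 0) (ih .nil (Nat.div k (nat_lit 2)) v))
          (.node (ih .nil (Nat.div k (nat_lit 2)) v) (nat_lit 0) .nil)
          (Nat.beq (Nat.mod k (nat_lit 2)) (nat_lit 0))) n)
      (fun l w r _ _ => Nat.rec (motive := fun _ => Tr) (.node l v r)
        (fun k _ => Bool.rec (motive := fun _ => Tr)
          (.node l w (ih r (Nat.div k (nat_lit 2)) v))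
          (.node (ih l (Nat.div k (nat_lit 2)) v) w r)
          (Nat.beq (Nat.mod k (nat_lit 2)) (nat_lit 0))) n) t) f

/-- update in continuation passing style -/
noncomputable def Tr.setK {α : Type} (f : ℕ) : Tr → ℕ → ℕ → (Tr → α) → α :=
  Nat.rec (motive := fun _ => Tr → ℕ → ℕ → (Tr → α) → α) (fun t _ _ K => K t)
    (fun _ ih t n v K => Tr.rec (motive := fun _ => α)
      (Nat.rec (motive := fun _ => α) (K (.node .nil v .nil))
        (fun k _ => Bool.rec (motive := fun _ => α)
          (ih .nil (Nat.div k (nat_lit 2)) v fun t' => K (.node .nil (nat_lit 0) t'))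
          (ih .nil (Nat.div k (nat_lit 2)) v fun t' => K (.node t' (nat_lit 0) .nil))
          (Nat.beq (Nat.mod k (nat_lit 2)) (nat_lit 0))) n)
      (fun l w r _ _ => Nat.rec (motive := fun _ => α) (K (.node l v r))
        (fun k _ => Bool.rec (motive := fun _ => α)
          (ih r (Nat.div k (nat_lit 2)) v fun t' => K (.node l w t'))
          (ih l (Nat.div k (nat_lit 2)) v fun t' => K (.node t' w r))
          (Nat.beq (Nat.mod k (nat_lit 2)) (nat_lit 0))) n) t) f

theorem Tr.get_nil (n : ℕ) : Tr.get .nil n = 0 := rfl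

theorem Tr.get_zero (l r : Tr) (v : ℕ) : Tr.get (.node l v r) 0 = v := rfl

theorem beq_mod_true {k : ℕ} (h : k % 2 = 0) :
    Nat.beq (Nat.mod k (nat_lit 2)) (nat_lit 0) = true := by
  cases hb : Nat.beq (Nat.mod k (nat_lit 2)) (nat_lit 0) with
  | true => rfl
  | false => exact absurd h (Nat.ne_of_beq_eq_false hb)

theorem beq_mod_false {k : ℕ} (h : k % 2 ≠ 0) :
    Nat.beq (Nat.mod k (nat_lit 2)) (nat_lit 0) = false := by
  cases hb : Nat.beq (Nat.mod k (nat_lit 2)) (nat_lit 0) with
  | false => rfl
  | true => exact absurd (Nat.eq_of_beq_eq_true hb) h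

theorem Tr.get_even (l r : Tr) (v : ℕ) {k : ℕ} (h : k % 2 = 0) :
    Tr.get (.node l v r) (k + 1) = l.get (k / 2) := by
  show (Bool.rec (motive := fun _ => ℕ) (r.get (Nat.div k (nat_lit 2)))
        (l.get (Nat.div k (nat_lit 2))) (Nat.beq (Nat.mod k (nat_lit 2)) (nat_lit 0)) : ℕ) = _
  rw [beq_mod_true h]; rfl

theorem Tr.get_odd (l r : Tr) (v : ℕ) {k : ℕ} (h : k % 2 ≠ 0) :
    Tr.get (.node l v r) (k + 1) = r.get (k / 2) := by
  show (Bool.rec (motive := fun _ => ℕ) (r.get (Nat.div k (nat_lit 2)))
        (l.get (Nat.div k (nat_lit 2))) (Nat.beq (Nat.mod k (nat_lit 2)) (nat_lit 0)) : ℕ) = _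
  rw [beq_mod_false h]; rfl

theorem Tr.set_even_nil (f : ℕ) (v : ℕ) {k : ℕ} (h : k % 2 = 0) :
    Tr.set (f + 1) .nil (k + 1) v = .node (Tr.set f .nil (k / 2) v) 0 .nil := by
  show (Bool.rec (motive := fun _ => Tr) (.node .nil (nat_lit 0)
          (Tr.set f .nil (Nat.div k (nat_lit 2)) v))
          (.node (Tr.set f .nil (Nat.div k (nat_lit 2)) v) (nat_lit 0) .nil)
          (Nat.beq (Nat.mod k (nat_lit 2)) (nat_lit 0)) : Tr) = _
  rw [beq_mod_true h]; rfl

theorem Tr.set_odd_nil (f : ℕ) (v : ℕ) {k : ℕ} (h : k % 2 ≠ 0) :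
    Tr.set (f + 1) .nil (k + 1) v = .node .nil 0 (Tr.set f .nil (k / 2) v) := by
  show (Bool.rec (motive := fun _ => Tr) (.node .nil (nat_lit 0)
          (Tr.set f .nil (Nat.div k (nat_lit 2)) v))
          (.node (Tr.set f .nil (Nat.div k (nat_lit 2)) v) (nat_lit 0) .nil)
          (Nat.beq (Nat.mod k (nat_lit 2)) (nat_lit 0)) : Tr) = _
  rw [beq_mod_false h]; rfl

theorem Tr.set_even (f : ℕ) (l r : Tr) (w v : ℕ) {k : ℕ} (h : k % 2 = 0) :
    Tr.set (f + 1) (.node l w r) (k + 1) v = .node (Tr.set f l (k / 2) v) w r := by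
  show (Bool.rec (motive := fun _ => Tr) (.node l w (Tr.set f r (Nat.div k (nat_lit 2)) v))
          (.node (Tr.set f l (Nat.div k (nat_lit 2)) v) w r)
          (Nat.beq (Nat.mod k (nat_lit 2)) (nat_lit 0)) : Tr) = _
  rw [beq_mod_true h]; rfl

theorem Tr.set_odd (f : ℕ) (l r : Tr) (w v : ℕ) {k : ℕ} (h : k % 2 ≠ 0) :
    Tr.set (f + 1) (.node l w r) (k + 1) v = .node l w (Tr.set f r (k / 2) v) := by
  show (Bool.rec (motive := fun _ => Tr) (.node l w (Tr.set f r (Nat.div k (nat_lit 2)) v))
          (.node (Tr.set f l (Nat.div k (nat_lit 2)) v) w r)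
          (Nat.beq (Nat.mod k (nat_lit 2)) (nat_lit 0)) : Tr) = _
  rw [beq_mod_false h]; rfl

theorem Tr.setK_eq {α : Type} (f : ℕ) : ∀ (t : Tr) (n v : ℕ) (K : Tr → α),
    t.setK f n v K = K (t.set f n v) := by
  induction f with
  | zero => intro t n v K; rfl
  | succ f ih =>
    intro t n v K
    cases t with
    | nil =>
      cases n with
      | zero => rfl
      | succ k =>
        show (Bool.rec (motive := fun _ => α)
          (Tr.setK f .nil (Nat.div k (nat_lit 2)) v fun t' => K (.node .nil (nat_lit 0) t'))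
          (Tr.setK f .nil (Nat.div k (nat_lit 2)) v fun t' => K (.node t' (nat_lit 0) .nil))
          (Nat.beq (Nat.mod k (nat_lit 2)) (nat_lit 0)) : α) = _
        by_cases hk : k % 2 = 0
        · rw [Tr.set_even_nil f v hk, beq_mod_true hk]
          exact ih _ _ _ _
        · rw [Tr.set_odd_nil f v hk, beq_mod_false hk]
          exact ih _ _ _ _
    | node l w r =>
      cases n with
      | zero => rfl
      | succ k =>
        show (Bool.rec (motive := fun _ => α)
          (Tr.setK f r (Nat.div k (nat_lit 2)) v fun t' => K (.node l w t'))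
          (Tr.setK f l (Nat.div k (nat_lit 2)) v fun t' => K (.node t' w r))
          (Nat.beq (Nat.mod k (nat_lit 2)) (nat_lit 0)) : α) = _
        by_cases hk : k % 2 = 0
        · rw [Tr.set_even f l r w v hk, beq_mod_true hk]
          exact ih _ _ _ _
        · rw [Tr.set_odd f l r w v hk, beq_mod_false hk]
          exact ih _ _ _ _

theorem Tr.get_set (f : ℕ) : ∀ (t : Tr) (n v m : ℕ),
    ((t.set f n v).get m) = t.get m ∨ (m = n ∧ ((t.set f n v).get m) = v) := by
  induction f with
  | zero => intro t n v m; left; rfl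
  | succ f ih =>
    intro t n v m
    cases t with
    | nil =>
      cases n with
      | zero =>
        cases m with
        | zero => right; exact ⟨rfl, rfl⟩
        | succ m =>
          left
          by_cases hm : m % 2 = 0
          · exact Tr.get_even .nil .nil v hm
          · exact Tr.get_odd .nil .nil v hm
      | succ k =>
        by_cases hk : k % 2 = 0
        · rw [Tr.set_even_nil f v hk]
          cases m with
          | zero => left; rfl
          | succ m =>
            by_cases hm : m % 2 = 0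
            · rw [Tr.get_even _ _ _ hm]
              rcases ih .nil (k / 2) v (m / 2) with h | ⟨h1, h2⟩
              · left; exact h
              · right; exact ⟨by omega, h2⟩
            · rw [Tr.get_odd _ _ _ hm]; left; rfl
        · rw [Tr.set_odd_nil f v hk]
          cases m with
          | zero => left; rfl
          | succ m =>
            by_cases hm : m % 2 = 0
            · rw [Tr.get_even _ _ _ hm]; left; rfl
            · rw [Tr.get_odd _ _ _ hm]
              rcases ih .nil (k / 2) v (m / 2) with h | ⟨h1, h2⟩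
              · left; exact h
              · right; exact ⟨by omega, h2⟩
    | node l w r =>
      cases n with
      | zero =>
        cases m with
        | zero => right; exact ⟨rfl, rfl⟩
        | succ m =>
          left
          by_cases hm : m % 2 = 0
          · rw [Tr.get_even l r w hm]; exact Tr.get_even l r v hm
          · rw [Tr.get_odd l r w hm]; exact Tr.get_odd l r v hm
      | succ k =>
        by_cases hk : k % 2 = 0
        · rw [Tr.set_even f l r w v hk]
          cases m with
          | zero => left; rfl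
          | succ m =>
            by_cases hm : m % 2 = 0
            · rw [Tr.get_even _ _ _ hm, Tr.get_even _ _ _ hm]
              rcases ih l (k / 2) v (m / 2) with h | ⟨h1, h2⟩
              · left; exact h
              · right; exact ⟨by omega, h2⟩
            · rw [Tr.get_odd _ _ _ hm, Tr.get_odd _ _ _ hm]; left; rfl
        · rw [Tr.set_odd f l r w v hk]
          cases m with
          | zero => left; rfl
          | succ m =>
            by_cases hm : m % 2 = 0
            · rw [Tr.get_even _ _ _ hm, Tr.get_even _ _ _ hm]; left; rfl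
            · rw [Tr.get_odd _ _ _ hm, Tr.get_odd _ _ _ hm]
              rcases ih r (k / 2) v (m / 2) with h | ⟨h1, h2⟩
              · left; exact h
              · right; exact ⟨by omega, h2⟩

/-- evaluation barrier for natural numbers -/
def force {α : Type} (n : ℕ) (f : ℕ → α) : α :=
  Nat.rec (motive := fun _ => α) (f (nat_lit 0)) (fun k _ => f (Nat.succ k)) n

theorem force_eq {α : Type} (n : ℕ) (f : ℕ → α) : force n f = f n := by
  cases n <;> rfl

/-- evaluation barrier for tries -/
def forceT {α : Type} (t : Tr) (f : Tr → α) : α :=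
  match t with
  | .nil => f .nil
  | .node l v r => f (.node l v r)

theorem forceT_eq {α : Type} (t : Tr) (f : Tr → α) : forceT t f = f t := by
  cases t <;> rfl

/-! ### digits -/

/-- the digit `i` of `N` in base `2^16` -/
def dg (N i : ℕ) : ℕ :=
  Nat.land (Nat.shiftRight N (Nat.mul (nat_lit 16) i)) (nat_lit 65535)

theorem dg_eq (N i : ℕ) : dg N i = N / 65536 ^ i % 65536 := by
  have h1 : dg N i = (N >>> (16 * i)) &&& (2 ^ 16 - 1) := rfl
  rw [h1, Nat.and_two_pow_sub_one_eq_mod, Nat.shiftRight_eq_div_pow, pow_mul]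
  norm_num

theorem digit_aux {N v i j : ℕ} (hN : N / 65536 ^ i % 65536 = 0) (hv : v < 65536) :
    (N + v * 65536 ^ i) / 65536 ^ j % 65536 =
      if j = i then v else N / 65536 ^ j % 65536 := by
  set B := 65536 with hB
  have hB0 : 0 < B := by norm_num [hB]
  rcases lt_trichotomy j i with h | h | h
  · rw [if_neg h.ne]
    obtain ⟨d, rfl⟩ := Nat.exists_eq_add_of_lt h
    have : N + v * B ^ (j + d + 1) = N + B ^ j * (v * B ^ d * B) := by ring
    rw [this, Nat.add_mul_div_left _ _ (pow_pos hB0 j), Nat.add_mul_mod_self_right]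
  · subst h
    rw [if_pos rfl, Nat.add_mul_div_right _ _ (pow_pos hB0 j), Nat.add_mod, hN, zero_add,
      Nat.mod_mod, Nat.mod_eq_of_lt hv]
  · rw [if_neg h.ne']
    obtain ⟨d, rfl⟩ := Nat.exists_eq_add_of_lt h
    have e1 : B ^ (i + d + 1) = B ^ i * B * B ^ d := by ring
    have key : (N + v * B ^ i) / B ^ i / B = N / B ^ i / B := by
      rw [Nat.add_mul_div_right _ _ (pow_pos hB0 i)]
      have : N / B ^ i = B * (N / B ^ i / B) := by
        have := Nat.div_add_mod (N / B ^ i) B
        omega
      rw [this, Nat.mul_div_cancel_left _ hB0]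
      rw [Nat.mul_add_div hB0, Nat.div_eq_of_lt hv, add_zero]
    rw [e1, ← Nat.div_div_eq_div_mul, ← Nat.div_div_eq_div_mul, ← Nat.div_div_eq_div_mul,
      ← Nat.div_div_eq_div_mul, key]

/-- table lookup -/
noncomputable def gt (t : Tr) (k : ℕ) : ℕ :=
  dg (t.get (Nat.div k (nat_lit 2048))) (Nat.mod k (nat_lit 2048))

/-- table update (only of an empty entry) -/
noncomputable def put (t : Tr) (k v : ℕ) : Tr :=
  force (t.get (Nat.div k (nat_lit 2048))) fun N =>
    Nat.rec (motive := fun _ => Tr)
      (Bool.rec (motive := fun _ => Tr) t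
        (t.set (nat_lit 64) (Nat.div k (nat_lit 2048))
          (Nat.add N (Nat.shiftLeft v (Nat.mul (nat_lit 16) (Nat.mod k (nat_lit 2048))))))
        (Nat.ble v (nat_lit 65535)))
      (fun _ _ => t) (dg N (Nat.mod k (nat_lit 2048)))

/-- table update in continuation passing style -/
noncomputable def putK {α : Type} (t : Tr) (k v : ℕ) (K : Tr → α) : α :=
  Nat.rec (motive := fun _ => α)
    (Bool.rec (motive := fun _ => α) (K t)
      (t.setK (nat_lit 64) (Nat.div k (nat_lit 2048))
        (Nat.add (t.get (Nat.div k (nat_lit 2048)))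
          (Nat.shiftLeft v (Nat.mul (nat_lit 16) (Nat.mod k (nat_lit 2048))))) K)
      (Nat.ble v (nat_lit 65535)))
    (fun _ _ => K t) (dg (t.get (Nat.div k (nat_lit 2048))) (Nat.mod k (nat_lit 2048)))

theorem putK_eq {α : Type} (t : Tr) (k v : ℕ) (K : Tr → α) : putK t k v K = K (put t k v) := by
  unfold putK put
  rw [force_eq]
  cases dg (t.get (Nat.div k (nat_lit 2048))) (Nat.mod k (nat_lit 2048)) with
  | succ n => rfl
  | zero =>
    cases Nat.ble v (nat_lit 65535) with
    | false => rfl
    | true => exact Tr.setK_eq _ _ _ _ _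

theorem gt_put (t : Tr) (k v k' : ℕ) :
    gt (put t k v) k' = gt t k' ∨ (k' = k ∧ gt (put t k v) k' = v) := by
  unfold put
  rw [force_eq]
  cases hd : dg (t.get (Nat.div k (nat_lit 2048))) (Nat.mod k (nat_lit 2048)) with
  | succ n => left; rfl
  | zero =>
    cases hb : Nat.ble v (nat_lit 65535) with
    | false => left; rfl
    | true =>
      have hv : v < 65536 := Nat.lt_succ_of_le (Nat.le_of_ble_eq_true hb)
      have hd' := hd
      rw [dg_eq] at hd'
      show gt (t.set (nat_lit 64) (Nat.div k (nat_lit 2048))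
          (Nat.add (t.get (Nat.div k (nat_lit 2048)))
            (Nat.shiftLeft v (Nat.mul (nat_lit 16) (Nat.mod k (nat_lit 2048)))))) k' = _ ∨
        (_ ∧ gt (t.set (nat_lit 64) (Nat.div k (nat_lit 2048))
          (Nat.add (t.get (Nat.div k (nat_lit 2048)))
            (Nat.shiftLeft v (Nat.mul (nat_lit 16) (Nat.mod k (nat_lit 2048)))))) k' = _)
      have hN : Nat.add (t.get (Nat.div k (nat_lit 2048)))
            (Nat.shiftLeft v (Nat.mul (nat_lit 16) (Nat.mod k (nat_lit 2048)))) =
          t.get (Nat.div k (nat_lit 2048)) + v * 65536 ^ (Nat.mod k (nat_lit 2048)) := by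
        have h5 : v <<< (16 * (k % 2048)) = v * 65536 ^ (k % 2048) := by
          rw [Nat.shiftLeft_eq, pow_mul]; norm_num
        show t.get (Nat.div k (nat_lit 2048)) + v <<< (16 * (k % 2048)) =
          t.get (Nat.div k (nat_lit 2048)) + v * 65536 ^ (k % 2048)
        rw [h5]
      rw [hN]
      unfold gt
      rcases Tr.get_set (nat_lit 64) t (Nat.div k (nat_lit 2048))
        (t.get (Nat.div k (nat_lit 2048)) + v * 65536 ^ (Nat.mod k (nat_lit 2048)))
        (Nat.div k' (nat_lit 2048)) with h | ⟨h1, h2⟩
      · left; rw [h]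
      · rw [h2, dg_eq, digit_aux hd' hv]
        by_cases hk : Nat.mod k' (nat_lit 2048) = Nat.mod k (nat_lit 2048)
        · right
          have h1' : k' / 2048 = k / 2048 := h1
          have h2' : k' % 2048 = k % 2048 := hk
          exact ⟨by omega, by rw [if_pos hk]⟩
        · left
          rw [if_neg hk, dg_eq, h1]

theorem gt_nil (k : ℕ) : gt .nil k = 0 := by
  unfold gt
  rw [Tr.get_nil, dg_eq]; simp

/-! ### the machine -/

/-- inverse letter -/
noncomputable def inv (g : ℕ) : ℕ :=
  Bool.rec (motive := fun _ => ℕ) (Nat.sub g (nat_lit 1)) (Nat.add g (nat_lit 1))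
    (Nat.beq (Nat.mod g (nat_lit 2)) (nat_lit 0))

/-- edge lookup -/
noncomputable def nx (T : Tr) (c g : ℕ) : ℕ :=
  Bool.rec (motive := fun _ => ℕ) (nat_lit 0)
    (gt T (Nat.add (Nat.mul (nat_lit 8) c) g)) (Nat.ble g (nat_lit 5))

/-- edge update -/
noncomputable def setE (T : Tr) (c g v : ℕ) : Tr :=
  Bool.rec (motive := fun _ => Tr) T
    (put T (Nat.add (Nat.mul (nat_lit 8) c) g) v) (Nat.ble g (nat_lit 5))

/-- parent lookup -/
noncomputable def pa (T : Tr) (c : ℕ) : ℕ := gt T (Nat.add (Nat.mul (nat_lit 8) c) (nat_lit 6))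

/-- parent update -/
noncomputable def setP (T : Tr) (c v : ℕ) : Tr :=
  put T (Nat.add (Nat.mul (nat_lit 8) c) (nat_lit 6)) v

theorem nx_setE (T : Tr) (c g v c' g' : ℕ) :
    nx (setE T c g v) c' g' = nx T c' g' ∨
      (c' = c ∧ g' = g ∧ nx (setE T c g v) c' g' = v) := by
  unfold nx setE
  cases hg' : Nat.ble g' (nat_lit 5) with
  | false => left; rfl
  | true =>
    cases hg : Nat.ble g (nat_lit 5) with
    | false => left; rfl
    | true =>
      have h1 : g' ≤ 5 := Nat.le_of_ble_eq_true hg'
      have h2 : g ≤ 5 := Nat.le_of_ble_eq_true hg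
      rcases gt_put T (8 * c + g) v (8 * c' + g') with h | ⟨h3, h4⟩
      · left; exact h
      · right; exact ⟨by omega, by omega, h4⟩

theorem pa_setE (T : Tr) (c g v c' : ℕ) : pa (setE T c g v) c' = pa T c' := by
  unfold pa setE
  cases hg : Nat.ble g (nat_lit 5) with
  | false => rfl
  | true =>
    have h2 : g ≤ 5 := Nat.le_of_ble_eq_true hg
    rcases gt_put T (8 * c + g) v (8 * c' + 6) with h | ⟨h3, h4⟩
    · exact h
    · omega

theorem nx_setP (T : Tr) (c v c' g' : ℕ) : nx (setP T c v) c' g' = nx T c' g' := by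
  unfold nx setP
  cases hg' : Nat.ble g' (nat_lit 5) with
  | false => rfl
  | true =>
    have h2 : g' ≤ 5 := Nat.le_of_ble_eq_true hg'
    rcases gt_put T (8 * c + 6) v (8 * c' + g') with h | ⟨h3, h4⟩
    · exact h
    · omega

theorem pa_setP (T : Tr) (c v c' : ℕ) :
    pa (setP T c v) c' = pa T c' ∨ (c' = c ∧ pa (setP T c v) c' = v) := by
  unfold pa setP
  rcases gt_put T (8 * c + 6) v (8 * c' + 6) with h | ⟨h3, h4⟩
  · left; exact h
  · right; exact ⟨by omega, h4⟩

theorem nx_nil (c g : ℕ) : nx .nil c g = 0 := by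
  unfold nx
  rw [gt_nil]; cases Nat.ble g (nat_lit 5) <;> rfl

theorem pa_nil (c : ℕ) : pa .nil c = 0 := gt_nil _

/-- representative -/
noncomputable def rep (T : Tr) (f : ℕ) : ℕ → ℕ :=
  Nat.rec (motive := fun _ => ℕ → ℕ) (fun c => c)
    (fun _ ih c => Nat.rec (motive := fun _ => ℕ) c (fun u _ => ih u) (pa T c)) f

/-- follow a word as far as possible -/
noncomputable def fwd (T : Tr) (w : List ℕ) : ℕ → ℕ × List ℕ :=
  List.rec (motive := fun _ => ℕ → ℕ × List ℕ) (fun c => (c, []))
    (fun g w ih c => Nat.rec (motive := fun _ => ℕ × List ℕ) (c, g :: w)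
      (fun d _ => force (rep T (nat_lit 4096) d) ih) (nx T c g)) w

/-- edge update in continuation passing style -/
noncomputable def setEK {α : Type} (T : Tr) (c g v : ℕ) (K : Tr → α) : α :=
  Bool.rec (motive := fun _ => α) (K T)
    (putK T (Nat.add (Nat.mul (nat_lit 8) c) g) v K) (Nat.ble g (nat_lit 5))

theorem setEK_eq {α : Type} (T : Tr) (c g v : ℕ) (K : Tr → α) :
    setEK T c g v K = K (setE T c g v) := by
  unfold setEK setE
  cases Nat.ble g (nat_lit 5) with
  | false => rfl
  | true => exact putK_eq _ _ _ _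

/-- parent update in continuation passing style -/
noncomputable def setPK {α : Type} (T : Tr) (c v : ℕ) (K : Tr → α) : α :=
  putK T (Nat.add (Nat.mul (nat_lit 8) c) (nat_lit 6)) v K

theorem setPK_eq {α : Type} (T : Tr) (c v : ℕ) (K : Tr → α) :
    setPK T c v K = K (setP T c v) := putK_eq _ _ _ _

/-- the block of a coset -/
noncomputable def blk (T : Tr) (c : ℕ) : ℕ := T.get (Nat.div c (nat_lit 256))

/-- the index in the block -/
noncomputable def ix (c g : ℕ) : ℕ := Nat.add (Nat.mul (nat_lit 8) (Nat.mod c (nat_lit 256))) g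

theorem gt_blk {T : Tr} {c g : ℕ} (hg : g ≤ 7) :
    gt T (Nat.add (Nat.mul (nat_lit 8) c) g) = dg (blk T c) (ix c g) := by
  have h1 : Nat.div (Nat.add (Nat.mul (nat_lit 8) c) g) (nat_lit 2048) =
      Nat.div c (nat_lit 256) := by
    show (8 * c + g) / 2048 = c / 256
    omega
  have h2 : Nat.mod (Nat.add (Nat.mul (nat_lit 8) c) g) (nat_lit 2048) = ix c g := by
    show (8 * c + g) % 2048 = 8 * (c % 256) + g
    omega
  unfold gt blk
  rw [h1, h2]

/-- resolve to the representative and continue with it and its block -/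
noncomputable def resK {α : Type} (T : Tr) (K : ℕ → ℕ → α) (f : ℕ) : ℕ → α :=
  Nat.rec (motive := fun _ => ℕ → α) (fun d => K d (blk T d))
    (fun _ ih d => Nat.rec (motive := fun _ => α) (K d (blk T d)) (fun u _ => ih u)
      (dg (blk T d) (ix d (nat_lit 6)))) f

theorem resK_eq {α : Type} (T : Tr) (K : ℕ → ℕ → α) (f : ℕ) : ∀ d,
    resK T K f d = K (rep T f d) (blk T (rep T f d)) := by
  induction f with
  | zero => intro d; rfl
  | succ f ih =>
    intro d
    show (Nat.rec (motive := fun _ => α) (K d (blk T d)) (fun u _ => resK T K f u)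
      (dg (blk T d) (ix d (nat_lit 6))) : α) = K (rep T (f + 1) d) (blk T (rep T (f + 1) d))
    have h : rep T (f + 1) d = Nat.rec (motive := fun _ => ℕ) d (fun u _ => rep T f u) (pa T d) :=
      rfl
    have h1 : pa T d = dg (blk T d) (ix d (nat_lit 6)) := gt_blk (by norm_num)
    rw [h, h1]
    cases dg (blk T d) (ix d (nat_lit 6)) with
    | zero => rfl
    | succ u => exact ih u

/-- follow a word as far as possible (fast version, `N` is the block of `c`) -/
noncomputable def fwdF (T : Tr) (w : List ℕ) : ℕ → ℕ → ℕ × List ℕ :=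
  List.rec (motive := fun _ => ℕ → ℕ → ℕ × List ℕ) (fun c _ => (c, []))
    (fun g w ih c N => Nat.rec (motive := fun _ => ℕ × List ℕ) (c, g :: w)
      (fun d _ => resK T ih (nat_lit 4096) d)
      (Bool.rec (motive := fun _ => ℕ) (nat_lit 0) (dg N (ix c g)) (Nat.ble g (nat_lit 5)))) w

theorem fwdF_eq (T : Tr) (w : List ℕ) : ∀ c, fwdF T w c (blk T c) = fwd T w c := by
  induction w with
  | nil => intro c; rfl
  | cons g w ih =>
    intro c
    have h1 : nx T c g = Bool.rec (motive := fun _ => ℕ) (nat_lit 0) (dg (blk T c) (ix c g))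
        (Nat.ble g (nat_lit 5)) := by
      unfold nx
      cases hb : Nat.ble g (nat_lit 5) with
      | false => rfl
      | true =>
        have : g ≤ 5 := Nat.le_of_ble_eq_true hb
        exact gt_blk (by omega)
    show (Nat.rec (motive := fun _ => ℕ × List ℕ) (c, g :: w)
      (fun d _ => resK T (fwdF T w) (nat_lit 4096) d)
      (Bool.rec (motive := fun _ => ℕ) (nat_lit 0) (dg (blk T c) (ix c g))
        (Nat.ble g (nat_lit 5))) : ℕ × List ℕ) =
      Nat.rec (motive := fun _ => ℕ × List ℕ) (c, g :: w)
        (fun d _ => force (rep T (nat_lit 4096) d) (fwd T w)) (nx T c g)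
    rw [← h1]
    cases nx T c g with
    | zero => rfl
    | succ d =>
      show resK T (fwdF T w) (nat_lit 4096) d = force (rep T (nat_lit 4096) d) (fwd T w)
      rw [resK_eq, ih, force_eq]

/-- merge row `v` into row `u`; new coincidences are put in the queue -/
noncomputable def rows (u v : ℕ) (gs : List ℕ) : Tr → List (ℕ × ℕ) → Tr × List (ℕ × ℕ) :=
  List.rec (motive := fun _ => Tr → List (ℕ × ℕ) → Tr × List (ℕ × ℕ)) (fun T q => (T, q))
    (fun g _ ih T q => Nat.rec (motive := fun _ => Tr × List (ℕ × ℕ)) (ih T q)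
      (fun w _ => Nat.rec (motive := fun _ => Tr × List (ℕ × ℕ))
        (setEK T u g (Nat.succ w) fun T' => ih T' q)
        (fun z _ => ih T ((z, w) :: q)) (nx T u g)) (nx T v g)) gs

/-- process coincidences -/
noncomputable def mergeq : ℕ → List (ℕ × ℕ) → Tr → Tr
  | 0, _, T => T
  | _ + 1, [], T => T
  | f + 1, p :: q, T =>
    force (rep T (nat_lit 4096) p.1) fun a => force (rep T (nat_lit 4096) p.2) fun b =>
      cond (Nat.beq a b) (mergeq f q T)
        (cond (Nat.ble (Nat.succ a) b)
          (match rows a b [0, 1, 2, 3, 4, 5] T q with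
            | (T', q') => setPK T' b (Nat.succ a) fun T'' => mergeq f q' T'')
          (match rows b a [0, 1, 2, 3, 4, 5] T q with
            | (T', q') => setPK T' a (Nat.succ b) fun T'' => mergeq f q' T''))

/-- inverse word -/
noncomputable def irev (w : List ℕ) : List ℕ := (w.map inv).reverse

/-- scan the relator `r` at coset `c` -/
noncomputable def scan1 (r : List ℕ) (c : ℕ) (T : Tr) : Tr :=
  resK T (fun c0 N0 =>
    match fwdF T r c0 N0 with
    | (a, []) => mergeq (nat_lit 100000) [(a, c0)] T
    | (a, g :: w) =>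
      match fwdF T (irev (g :: w)) c0 N0 with
      | (b, []) => mergeq (nat_lit 100000) [(a, b)] T
      | (b, [h]) => setEK T b h (Nat.succ a) fun T' => setEK T' a (inv h) (Nat.succ b) fun T'' => T''
      | (_, _ :: _ :: _) => T) (nat_lit 4096) c

/-- all scans -/
noncomputable def scans (rels : List (List ℕ)) : List ℕ → Tr → Tr
  | [], T => T
  | s :: ss, T => forceT (scan1 (rels.getD (Nat.mod s (nat_lit 64)) [])
      (Nat.div s (nat_lit 64)) T) fun T' => scans rels ss T'

/-- definitions: the `n`-th entry `8*c+g` defines the coset `n` as `c·g` -/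
noncomputable def build : List ℕ → ℕ → Tr → Tr
  | [], _, T => T
  | d :: ds, n, T =>
    force n fun n => force d fun d =>
    cond (Nat.ble (Nat.succ (Nat.div d (nat_lit 8))) n)
      (setEK T (Nat.div d (nat_lit 8)) (Nat.mod d (nat_lit 8)) (Nat.succ n) fun T' =>
        setEK T' n (inv (Nat.mod d (nat_lit 8))) (Nat.succ (Nat.div d (nat_lit 8)))
          fun T'' => build ds (Nat.succ n) T'')
      (build ds (Nat.succ n) T)

/-- decode -/
noncomputable def unpack1 (f : ℕ) : ℕ → List ℕ → List ℕ :=
  Nat.rec (motive := fun _ => ℕ → List ℕ → List ℕ) (fun _ acc => acc)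
    (fun _ ih n acc => Nat.rec (motive := fun _ => List ℕ) acc
      (fun k _ => (Nat.mod k (nat_lit 16777216)) :: ih (Nat.div (Nat.succ k) (nat_lit 16777216))
        acc) n) f

/-- decode a list of chunks -/
noncomputable def unpack : List ℕ → List ℕ
  | [] => []
  | n :: ns => unpack1 (nat_lit 1000) n (unpack ns)

/-- the checker -/
noncomputable def check (rels : List (List ℕ)) (defs scs : List ℕ) (goal : List ℕ) : Bool :=
  forceT (build (unpack defs) 1 .nil) fun T0 =>
    forceT (scans rels (unpack scs) T0) fun T =>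
      match fwd T goal 0 with
      | (0, []) => true
      | _ => false

/-! ### soundness -/

section sound

set_option linter.unusedSectionVars false

variable {G : Type*} [Group G]

/-- value of a letter -/
def lv (gen : ℕ → G) (g : ℕ) : G := if g % 2 = 0 then gen (g / 2) else (gen (g / 2))⁻¹

/-- value of a word -/
def ev (gen : ℕ → G) (w : List ℕ) : G := (w.map (lv gen)).prod

theorem lv_inv (gen : ℕ → G) (g : ℕ) : lv gen (inv g) = (lv gen g)⁻¹ := by
  by_cases h1 : g % 2 = 0
  · have h0 : inv g = g + 1 := by unfold inv; rw [beq_mod_true h1]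
    have h2 : (g + 1) % 2 ≠ 0 := by omega
    have h3 : (g + 1) / 2 = g / 2 := by omega
    rw [h0]; unfold lv
    rw [if_pos h1, if_neg h2, h3]
  · have h0 : inv g = g - 1 := by unfold inv; rw [beq_mod_false h1]; rfl
    have h2 : (g - 1) % 2 = 0 := by omega
    have h3 : (g - 1) / 2 = g / 2 := by omega
    rw [h0]; unfold lv
    rw [if_neg h1, if_pos h2, h3, inv_inv]

@[simp] theorem ev_nil (gen : ℕ → G) : ev gen [] = 1 := rfl

theorem ev_cons (gen : ℕ → G) (g : ℕ) (w : List ℕ) : ev gen (g :: w) = lv gen g * ev gen w := by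
  simp [ev]

theorem ev_append (gen : ℕ → G) (u w : List ℕ) : ev gen (u ++ w) = ev gen u * ev gen w := by
  simp [ev]

theorem ev_irev (gen : ℕ → G) (w : List ℕ) : ev gen (irev w) = (ev gen w)⁻¹ := by
  induction w with
  | nil => simp [irev]
  | cons g w ih =>
    have : irev (g :: w) = irev w ++ [inv g] := by simp [irev]
    rw [this, ev_append, ih, ev_cons, ev_cons, ev_nil, lv_inv, mul_one, mul_inv_rev]

variable (gen : ℕ → G) (val : ℕ → G)

/-- the table is correct -/
def Inv (T : Tr) : Prop :=
  (∀ c g d, nx T c g = d + 1 → val c * lv gen g = val d) ∧ (∀ c u, pa T c = u + 1 → val c = val u)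

variable {gen val}

theorem Inv.setE {T : Tr} (h : Inv gen val T) {c g v : ℕ} (hv : val c * lv gen g = val v) :
    Inv gen val (setE T c g (v + 1)) := by
  refine ⟨?_, ?_⟩
  · intro c' g' d hd
    rcases nx_setE T c g (v + 1) c' g' with h1 | ⟨rfl, rfl, h3⟩
    · exact h.1 c' g' d (by rw [← h1]; exact hd)
    · have : d = v := by rw [h3] at hd; omega
      rw [this]; exact hv
  · intro c' u hu
    rw [pa_setE] at hu
    exact h.2 c' u hu

theorem Inv.setP {T : Tr} (h : Inv gen val T) {c v : ℕ} (hv : val c = val v) :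
    Inv gen val (setP T c (v + 1)) := by
  refine ⟨?_, ?_⟩
  · intro c' g' d hd
    rw [nx_setP] at hd
    exact h.1 c' g' d hd
  · intro c' d hd
    rcases pa_setP T c (v + 1) c' with h1 | ⟨rfl, h3⟩
    · exact h.2 c' d (by rw [← h1]; exact hd)
    · have : d = v := by rw [h3] at hd; omega
      rw [this]; exact hv

theorem rep_val {T : Tr} (h : Inv gen val T) (f : ℕ) : ∀ c, val (rep T f c) = val c := by
  induction f with
  | zero => intro c; rfl
  | succ f ih =>
    intro c
    show val (Nat.rec (motive := fun _ => ℕ) c (fun u _ => rep T f u) (pa T c)) = val c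
    cases hc : pa T c with
    | zero => rfl
    | succ u =>
      show val (rep T f u) = val c
      rw [ih u]; exact (h.2 c u hc).symm

theorem fwd_val {T : Tr} (h : Inv gen val T) (w : List ℕ) :
    ∀ c, val c * ev gen w = val (fwd T w c).1 * ev gen (fwd T w c).2 := by
  induction w with
  | nil => intro c; rfl
  | cons g w ih =>
    intro c
    show val c * ev gen (g :: w) = val (Nat.rec (motive := fun _ => ℕ × List ℕ) (c, g :: w)
      (fun d _ => force (rep T (nat_lit 4096) d) (fwd T w)) (nx T c g)).1 * ev gen (Nat.rec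
      (motive := fun _ => ℕ × List ℕ) (c, g :: w)
      (fun d _ => force (rep T (nat_lit 4096) d) (fwd T w)) (nx T c g)).2
    cases hc : nx T c g with
    | zero => rfl
    | succ d =>
      show val c * ev gen (g :: w) = val (force (rep T (nat_lit 4096) d) (fwd T w)).1 *
        ev gen (force (rep T (nat_lit 4096) d) (fwd T w)).2
      rw [force_eq, ← ih, rep_val h, ev_cons, ← mul_assoc, h.1 c g d hc]

/-- the queue is correct -/
def InvQ (val : ℕ → G) (q : List (ℕ × ℕ)) : Prop := ∀ p ∈ q, val p.1 = val p.2

theorem rows_cons0 {u v g : ℕ} {gs : List ℕ} {E : Tr} {q : List (ℕ × ℕ)} (hv : nx E v g = 0) :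
    rows u v (g :: gs) E q = rows u v gs E q := by
  show (Nat.rec (motive := fun _ => Tr × List (ℕ × ℕ)) (rows u v gs E q)
      (fun w _ => Nat.rec (motive := fun _ => Tr × List (ℕ × ℕ))
        (setEK E u g (Nat.succ w) fun E' => rows u v gs E' q)
        (fun z _ => rows u v gs E ((z, w) :: q)) (nx E u g)) (nx E v g) :
          Tr × List (ℕ × ℕ)) = _
  rw [hv]; rfl

theorem rows_cons1 {u v g w : ℕ} {gs : List ℕ} {E : Tr} {q : List (ℕ × ℕ)}
    (hv : nx E v g = w + 1) (hu : nx E u g = 0) :
    rows u v (g :: gs) E q = rows u v gs (setE E u g (w + 1)) q := by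
  show (Nat.rec (motive := fun _ => Tr × List (ℕ × ℕ)) (rows u v gs E q)
      (fun w _ => Nat.rec (motive := fun _ => Tr × List (ℕ × ℕ))
        (setEK E u g (Nat.succ w) fun E' => rows u v gs E' q)
        (fun z _ => rows u v gs E ((z, w) :: q)) (nx E u g)) (nx E v g) :
          Tr × List (ℕ × ℕ)) = _
  rw [hv, hu]
  show setEK E u g (Nat.succ w) (fun E' => rows u v gs E' q) = _
  rw [setEK_eq]

theorem rows_cons2 {u v g w z : ℕ} {gs : List ℕ} {E : Tr} {q : List (ℕ × ℕ)}
    (hv : nx E v g = w + 1) (hu : nx E u g = z + 1) :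
    rows u v (g :: gs) E q = rows u v gs E ((z, w) :: q) := by
  show (Nat.rec (motive := fun _ => Tr × List (ℕ × ℕ)) (rows u v gs E q)
      (fun w _ => Nat.rec (motive := fun _ => Tr × List (ℕ × ℕ))
        (setEK E u g (Nat.succ w) fun E' => rows u v gs E' q)
        (fun z _ => rows u v gs E ((z, w) :: q)) (nx E u g)) (nx E v g) :
          Tr × List (ℕ × ℕ)) = _
  rw [hv, hu]

theorem rows_inv {u v : ℕ} (huv : val u = val v) (gs : List ℕ) :
    ∀ (T : Tr) (q : List (ℕ × ℕ)), Inv gen val T → InvQ val q →
      Inv gen val (rows u v gs T q).1 ∧ InvQ val (rows u v gs T q).2 := by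
  induction gs with
  | nil => intro T q hT hq; exact ⟨hT, hq⟩
  | cons g gs ih =>
    intro T q hT hq
    rcases hv : nx T v g with _ | w
    · rw [rows_cons0 hv]; exact ih T q hT hq
    · rcases hu : nx T u g with _ | z
      · rw [rows_cons1 hv hu]
        refine ih _ q (hT.setE ?_) hq
        rw [huv]; exact hT.1 v g w hv
      · rw [rows_cons2 hv hu]
        refine ih T _ hT ?_
        intro p hp
        rcases List.mem_cons.mp hp with rfl | hp
        · show val z = val w
          rw [← hT.1 v g w hv, ← hT.1 u g z hu, huv]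
        · exact hq p hp

theorem mergeq_inv (f : ℕ) : ∀ (q : List (ℕ × ℕ)) (T : Tr), Inv gen val T →
    InvQ val q → Inv gen val (mergeq f q T) := by
  induction f with
  | zero => intro q T hT _; cases q <;> exact hT
  | succ f ih =>
    intro q T hT hq
    cases q with
    | nil => exact hT
    | cons p q =>
      simp only [mergeq, force_eq, setPK_eq]
      have hq' : InvQ val q := fun p hp => hq p (List.mem_cons_of_mem _ hp)
      have hab : val (rep T (nat_lit 4096) p.1) = val (rep T (nat_lit 4096) p.2) := by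
        rw [rep_val hT, rep_val hT]; exact hq p List.mem_cons_self
      cases Nat.beq (rep T (nat_lit 4096) p.1) (rep T (nat_lit 4096) p.2) with
      | true => exact ih q T hT hq'
      | false =>
        cases Nat.ble (Nat.succ (rep T (nat_lit 4096) p.1)) (rep T (nat_lit 4096) p.2) with
        | true =>
          have h := rows_inv (gen := gen) hab [0, 1, 2, 3, 4, 5] T q hT hq'
          exact ih _ _ (h.1.setP hab.symm) h.2
        | false =>
          have h := rows_inv (gen := gen) hab.symm [0, 1, 2, 3, 4, 5] T q hT hq'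
          exact ih _ _ (h.1.setP hab) h.2

theorem InvQ.single {a b : ℕ} (h : val a = val b) : InvQ val [(a, b)] := by
  intro p hp
  rw [List.mem_singleton.mp hp]; exact h

theorem scan1_inv {r : List ℕ} (hr : ev gen r = 1) (c : ℕ) {T : Tr} (hT : Inv gen val T) :
    Inv gen val (scan1 r c T) := by
  unfold scan1
  rw [resK_eq]
  simp only [fwdF_eq]
  have h1 := fwd_val hT r (rep T (nat_lit 4096) c)
  rw [hr, mul_one] at h1
  rcases h : fwd T r (rep T (nat_lit 4096) c) with ⟨a, w⟩
  rw [h] at h1
  cases w with
  | nil =>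
    simp only [ev_nil, mul_one] at h1
    exact mergeq_inv _ _ _ hT (InvQ.single h1.symm)
  | cons g w =>
    have h2 := fwd_val hT (irev (g :: w)) (rep T (nat_lit 4096) c)
    rw [ev_irev, h1] at h2
    simp only [mul_inv_cancel_right] at h2
    rcases h' : fwd T (irev (g :: w)) (rep T (nat_lit 4096) c) with ⟨b, v⟩
    rw [h'] at h2
    simp only at h2 ⊢
    rw [h']
    match v, h2 with
    | [], h2 =>
      simp only [ev_nil, mul_one] at h2
      exact mergeq_inv _ _ _ hT (InvQ.single h2)
    | [k], h2 =>
      simp only [ev_cons, ev_nil, mul_one] at h2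
      simp only [setEK_eq]
      refine Inv.setE (hT.setE h2.symm) ?_
      rw [lv_inv, h2, mul_inv_cancel_right]
    | _ :: _ :: _, _ => exact hT

theorem scans_inv {rels : List (List ℕ)} (hr : ∀ r ∈ rels, ev gen r = 1) (ss : List ℕ) :
    ∀ (T : Tr), Inv gen val T → Inv gen val (scans rels ss T) := by
  induction ss with
  | nil => intro T hT; exact hT
  | cons s ss ih =>
    intro T hT
    have h0 : ev gen (rels.getD (Nat.mod s (nat_lit 64)) []) = 1 := by
      by_cases hs : Nat.mod s (nat_lit 64) < rels.length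
      · rw [List.getD_eq_getElem _ _ hs]; exact hr _ (List.getElem_mem hs)
      · rw [List.getD_eq_default _ _ (by omega)]; rfl
    show Inv gen val (forceT _ _)
    rw [forceT_eq]
    exact ih _ (scan1_inv h0 _ hT)

theorem build_inv (ds : List ℕ) : ∀ (n : ℕ) (T : Tr), 0 < n →
    (∃ val : ℕ → G, val 0 = 1 ∧ Inv gen val T) →
    (∀ c g d, nx T c g = d + 1 → c < n ∧ d < n) → (∀ c, pa T c = 0) →
    ∃ val : ℕ → G, val 0 = 1 ∧ Inv gen val (build ds n T) := by
  induction ds with
  | nil => intro n T _ h _ _; exact h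
  | cons d ds ih =>
    intro n T hn ⟨val, h0, hT⟩ hf hp
    simp only [build, setEK_eq, force_eq]
    cases hd : Nat.ble (Nat.succ (Nat.div d (nat_lit 8))) n with
    | false =>
      refine ih (n + 1) T (by omega) ⟨val, h0, hT⟩ ?_ hp
      intro c g e he
      have := hf c g e he
      omega
    | true =>
      have hd' : Nat.div d (nat_lit 8) < n := Nat.le_of_ble_eq_true hd
      refine ih (n + 1) _ (by omega) ⟨Function.update val n
        (val (Nat.div d (nat_lit 8)) * lv gen (Nat.mod d (nat_lit 8))), ?_, ?_⟩ ?_ ?_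
      · rw [Function.update_of_ne (by omega)]; exact h0
      · have hT' : Inv gen (Function.update val n
            (val (Nat.div d (nat_lit 8)) * lv gen (Nat.mod d (nat_lit 8)))) T := by
          refine ⟨?_, ?_⟩
          · intro c g e he
            have := hf c g e he
            rw [Function.update_of_ne (by omega), Function.update_of_ne (by omega)]
            exact hT.1 c g e he
          · intro c u hu
            rw [hp c] at hu; omega
        refine Inv.setE (hT'.setE ?_) ?_
        · rw [Function.update_of_ne (Nat.ne_of_lt hd'), Function.update_self]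
        · rw [Function.update_self, Function.update_of_ne (Nat.ne_of_lt hd'), lv_inv,
            mul_inv_cancel_right]
      · intro c g e he
        rcases nx_setE (setE T (Nat.div d (nat_lit 8)) (Nat.mod d (nat_lit 8)) (Nat.succ n)) n
          (inv (Nat.mod d (nat_lit 8))) (Nat.succ (Nat.div d (nat_lit 8))) c g with
          h1 | ⟨rfl, rfl, h3⟩
        · rw [h1] at he
          rcases nx_setE T (Nat.div d (nat_lit 8)) (Nat.mod d (nat_lit 8)) (Nat.succ n) c g with
            h1 | ⟨rfl, rfl, h3⟩
          · rw [h1] at he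
            have := hf c g e he
            omega
          · rw [h3] at he; omega
        · rw [h3] at he; omega
      · intro c
        rw [pa_setE, pa_setE]; exact hp c

/-- **Soundness of the checker** -/
theorem check_sound {rels : List (List ℕ)} {defs scs goal : List ℕ}
    (h : check rels defs scs goal = true) (hr : ∀ r ∈ rels, ev gen r = 1) :
    ev gen goal = 1 := by
  obtain ⟨val, h0, hT⟩ := build_inv (gen := gen) (unpack defs) 1 .nil one_pos
    ⟨fun _ => 1, rfl, fun c g d hd => by rw [nx_nil] at hd; omega,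
      fun _ _ _ => rfl⟩
    (by intro c g d hd; rw [nx_nil] at hd; omega) pa_nil
  unfold check at h
  rw [forceT_eq, forceT_eq] at h
  have hi := scans_inv (val := val) hr (unpack scs) _ hT
  have hw := fwd_val hi goal 0
  rcases hf : fwd (scans rels (unpack scs) (build (unpack defs) 1 Tr.nil)) goal 0 with ⟨a, w⟩
  rw [hf] at h hw
  match a, w, h, hw with
  | 0, [], _, hw => simpa [h0] using hw
  | 0, _ :: _, h, _ => exact absurd h (by simp)
  | _ + 1, [], h, _ => exact absurd h (by simp)
  | _ + 1, _ :: _, h, _ => exact absurd h (by simp)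

end sound

end H15.TC
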