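import Pool.Agent.H15R2.TC3

/-!
Case trees on top of the Todd-Coxeter checker, for groups in which the product of two elements
of order 3 has order dividing 3 or 4.
-/

namespace H15.TC

/-- push a letter, reducing `g g⁻¹ = 1` and `g g = g⁻¹` -/
noncomputable def push (g : ℕ) (l : List ℕ) : List ℕ :=
  List.rec (motive := fun _ => ℕ → List ℕ) (fun g => [g])
    (fun h t ih g => cond (Nat.beq h (inv g)) t (cond (Nat.beq h g) (ih (inv g)) (g :: h :: t))) l g

/-- reduction -/
noncomputable def red3 (l : List ℕ) : List ℕ :=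
  List.rec (motive := fun _ => List ℕ) [] (fun g _ ih => push g ih) l

/-- power of a word -/
def pw (w : List ℕ) : ℕ → List ℕ
  | 0 => []
  | n + 1 => w ++ pw w n

/-- the word at a node: `(p⁻¹ a p) (q⁻¹ b q)`, reduced -/
noncomputable def nodeWord (p a q b : List ℕ) : List ℕ :=
  red3 (irev p ++ a ++ p ++ irev q ++ b ++ q)

/-- case trees: at a leaf the checker proves a goal word trivial; at a node, the cube or the
fourth power of `nodeWord p a q b`, with `a` and `b` from the list `tw` of words of trivial cube,
is added to the relators -/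
inductive OK (tw goals : List (List ℕ)) : List (List ℕ) → Prop where
  | leaf (rels : List (List ℕ)) (d s : List ℕ) (g : ℕ) (gw : List ℕ)
      (hg : goals[g]? = some gw) (h : check rels d s gw = true) : OK tw goals rels
  | node (rels r3 r4 : List (List ℕ)) (p a q b : List ℕ)
      (hab : (tw.contains a && tw.contains b) = true)
      (h3 : rels ++ [pw (nodeWord p a q b) 3] = r3) (h4 : rels ++ [pw (nodeWord p a q b) 4] = r4)
      (t3 : OK tw goals r3) (t4 : OK tw goals r4) : OK tw goals rels

section sound

variable {G : Type*} [Group G] {gen : ℕ → G}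

theorem push_nil (g : ℕ) : push g [] = [g] := rfl

theorem push_cons (g h : ℕ) (t : List ℕ) : push g (h :: t) =
    cond (Nat.beq h (inv g)) t (cond (Nat.beq h g) (push (inv g) t) (g :: h :: t)) := rfl

theorem lv_cube (h3 : ∀ i, gen i ^ 3 = 1) (g : ℕ) : lv gen g ^ 3 = 1 := by
  unfold lv
  split
  · exact h3 _
  · rw [inv_pow, h3, inv_one]

theorem ev_push (h3 : ∀ i, gen i ^ 3 = 1) (l : List ℕ) :
    ∀ g, ev gen (push g l) = lv gen g * ev gen l := by
  induction l with
  | nil => intro g; rw [push_nil, ev_cons]
  | cons h t ih =>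
    intro g
    rw [push_cons]
    cases h1 : Nat.beq h (inv g) with
    | true =>
      have := Nat.eq_of_beq_eq_true h1
      rw [cond_true, this, ev_cons, lv_inv, mul_inv_cancel_left]
    | false =>
      cases h2 : Nat.beq h g with
      | true =>
        have := Nat.eq_of_beq_eq_true h2
        rw [cond_false, cond_true, ih, this, ev_cons, lv_inv]
        have h4 := lv_cube h3 g
        have h5 : (lv gen g)⁻¹ = lv gen g * lv gen g := by
          rw [inv_eq_iff_mul_eq_one, ← pow_three]; exact h4
        rw [h5, mul_assoc]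
      | false => rw [cond_false, cond_false, ev_cons]

theorem ev_red3 (h3 : ∀ i, gen i ^ 3 = 1) (l : List ℕ) : ev gen (red3 l) = ev gen l := by
  induction l with
  | nil => rfl
  | cons g l ih =>
    show ev gen (push g (red3 l)) = _
    rw [ev_push h3, ih, ev_cons]

theorem ev_pw (w : List ℕ) (n : ℕ) : ev gen (pw w n) = ev gen w ^ n := by
  induction n with
  | zero => simp [pw]
  | succ n ih => rw [pw, ev_append, ih, pow_succ']

theorem ok_sound {tw goals : List (List ℕ)} (h3 : ∀ i, gen i ^ 3 = 1)
    (hT : ∀ a b : G, a ^ 3 = 1 → b ^ 3 = 1 → (a * b) ^ 3 = 1 ∨ (a * b) ^ 4 = 1)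
    (htw : ∀ w ∈ tw, ev gen w ^ 3 = 1) {rels : List (List ℕ)} (t : OK tw goals rels)
    (hr : ∀ r ∈ rels, ev gen r = 1) : ∃ g ∈ goals, ev gen g = 1 := by
  induction t with
  | leaf rels d s g gw hg h => exact ⟨gw, List.mem_of_getElem? hg, check_sound h hr⟩
  | node rels r3 r4 p a q b hab e3 e4 _ _ ih3 ih4 =>
    rw [Bool.and_eq_true] at hab
    obtain ⟨ha, hb⟩ := hab
    have ha' : ev gen a ^ 3 = 1 := htw a (by simpa using ha)
    have hb' : ev gen b ^ 3 = 1 := htw b (by simpa using hb)
    have conj3 : ∀ c d : G, d ^ 3 = 1 → (c⁻¹ * d * c) ^ 3 = 1 := by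
      intro c d hd
      have : (c⁻¹ * d * c) ^ 3 = c⁻¹ * d ^ 3 * c := by simp [pow_succ, mul_assoc]
      rw [this, hd]; simp
    have hw : ev gen (nodeWord p a q b) =
        ((ev gen p)⁻¹ * ev gen a * ev gen p) * ((ev gen q)⁻¹ * ev gen b * ev gen q) := by
      unfold nodeWord
      rw [ev_red3 h3]
      simp only [ev_append, ev_irev, mul_assoc]
    rcases hT _ _ (conj3 (ev gen p) _ ha') (conj3 (ev gen q) _ hb') with h5 | h5
    · refine ih3 ?_
      rw [← e3]
      intro r hr'
      rcases List.mem_append.mp hr' with h6 | h6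
      · exact hr r h6
      · rw [List.mem_singleton.mp h6, ev_pw, hw]; exact h5
    · refine ih4 ?_
      rw [← e4]
      intro r hr'
      rcases List.mem_append.mp hr' with h6 | h6
      · exact hr r h6
      · rw [List.mem_singleton.mp h6, ev_pw, hw]; exact h5

end sound

end H15.TC
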